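import Mathlib

set_option autoImplicit false

namespace Pool.Agent.TransPre

/-- Cauchy-Schwarz count of pairs in the same class -/
theorem same_pairs {ι κ : Type} [DecidableEq ι] [DecidableEq κ] (S : Finset ι) (τ : ι → κ) {k : ℕ}
    (hk : (S.image τ).card ≤ k) :
    S.card ^ 2 ≤ k * ((S.offDiag.filter (fun p => τ p.1 = τ p.2)).card + S.card) := by
  classical
  have h1 : S.card = ∑ t ∈ S.image τ, (S.filter (fun x => τ x = t)).card :=
    Finset.card_eq_sum_card_image τ S
  have h2 : ((S ×ˢ S).filter (fun p => τ p.1 = τ p.2)).card =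
      ∑ t ∈ S.image τ, (S.filter (fun x => τ x = t)).card ^ 2 := by
    rw [Finset.card_eq_sum_card_fiberwise (f := fun p : ι × ι => τ p.1) (t := S.image τ)]
    · refine Finset.sum_congr rfl ?_
      intro t _
      rw [sq, ← Finset.card_product]
      refine congrArg Finset.card ?_
      ext ⟨x, y⟩
      simp only [Finset.mem_filter, Finset.mem_product]
      constructor
      · rintro ⟨⟨⟨hx, hy⟩, hxy⟩, hxt⟩
        exact ⟨⟨hx, hxt⟩, hy, by rw [← hxy]; exact hxt⟩
      · rintro ⟨⟨hx, hxt⟩, hy, hyt⟩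
        exact ⟨⟨⟨hx, hy⟩, by rw [hxt, hyt]⟩, hxt⟩
    · intro p hp
      simp only [Finset.coe_filter, Finset.mem_product, Set.mem_setOf_eq] at hp
      simp only [Finset.coe_image, Set.mem_image, Finset.mem_coe]
      exact ⟨p.1, hp.1.1, rfl⟩
  have h3 : ((S ×ˢ S).filter (fun p => τ p.1 = τ p.2)).card ≤
      (S.offDiag.filter (fun p => τ p.1 = τ p.2)).card + S.card := by
    have h4 : (S ×ˢ S).filter (fun p => τ p.1 = τ p.2) ⊆
        S.offDiag.filter (fun p => τ p.1 = τ p.2) ∪ S.image (fun x => (x, x)) := by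
      rintro ⟨x, y⟩ hp
      simp only [Finset.mem_filter, Finset.mem_product] at hp
      simp only [Finset.mem_union, Finset.mem_filter, Finset.mem_offDiag, Finset.mem_image]
      by_cases hxy : x = y
      · right
        exact ⟨x, hp.1.1, by rw [hxy]⟩
      · left
        exact ⟨⟨hp.1.1, hp.1.2, hxy⟩, hp.2⟩
    refine (Finset.card_le_card h4).trans ((Finset.card_union_le _ _).trans ?_)
    gcongr
    exact Finset.card_image_le
  have h5 : (∑ t ∈ S.image τ, (S.filter (fun x => τ x = t)).card) ^ 2 ≤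
      (S.image τ).card * ∑ t ∈ S.image τ, (S.filter (fun x => τ x = t)).card ^ 2 :=
    sq_sum_le_card_mul_sum_sq
  calc S.card ^ 2 = (∑ t ∈ S.image τ, (S.filter (fun x => τ x = t)).card) ^ 2 := by rw [← h1]
    _ ≤ (S.image τ).card * ∑ t ∈ S.image τ, (S.filter (fun x => τ x = t)).card ^ 2 := h5
    _ = (S.image τ).card * ((S ×ˢ S).filter (fun p => τ p.1 = τ p.2)).card := by rw [h2]
    _ ≤ k * ((S.offDiag.filter (fun p => τ p.1 = τ p.2)).card + S.card) := by
      gcongr

/-- a popular class -/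
theorem popular {ι κ : Type} [DecidableEq ι] [DecidableEq κ] (S : Finset ι) (τ : ι → κ) {k : ℕ}
    (hk : (S.image τ).card ≤ k) (hS : S.Nonempty) :
    ∃ S' ⊆ S, S'.Nonempty ∧ (∀ x ∈ S', ∀ y ∈ S', τ x = τ y) ∧ S.card ≤ k * S'.card := by
  classical
  by_contra hcon
  push Not at hcon
  have h1 : S.card = ∑ t ∈ S.image τ, (S.filter (fun x => τ x = t)).card :=
    Finset.card_eq_sum_card_image τ S
  have hne : (S.image τ).Nonempty := hS.image τ
  have h2 : ∀ t ∈ S.image τ, k * (S.filter (fun x => τ x = t)).card < S.card := by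
    intro t ht
    refine hcon _ (Finset.filter_subset _ _) ?_ ?_
    · rw [Finset.mem_image] at ht
      obtain ⟨x, hx, hxt⟩ := ht
      exact ⟨x, Finset.mem_filter.mpr ⟨hx, hxt⟩⟩
    · intro x hx y hy
      rw [Finset.mem_filter] at hx hy
      rw [hx.2, hy.2]
  have h3 : ∑ t ∈ S.image τ, k * (S.filter (fun x => τ x = t)).card <
      ∑ t ∈ S.image τ, S.card := Finset.sum_lt_sum_of_nonempty hne h2
  rw [← Finset.mul_sum, ← h1, Finset.sum_const, smul_eq_mul] at h3
  exact absurd h3 (not_lt.mpr (Nat.mul_le_mul_right _ hk))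

end Pool.Agent.TransPre
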