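import Mathlib

set_option autoImplicit false

namespace Pool.Agent.TransPre

open Polynomial

/-- bound for a polynomial of degree at most `k` -/
theorem abs_eval_le (h : ℝ[X]) {k : ℕ} (hk : h.natDegree ≤ k) :
    ∃ C : ℝ, 0 ≤ C ∧ ∀ R x : ℝ, 1 ≤ R → |x| ≤ R → |h.eval x| ≤ C * R ^ k := by
  refine ⟨∑ i ∈ Finset.range (h.natDegree + 1), |h.coeff i|,
    Finset.sum_nonneg fun _ _ => abs_nonneg _, ?_⟩
  intro R x hR hx
  rw [eval_eq_sum_range, Finset.sum_mul]
  refine (Finset.abs_sum_le_sum_abs _ _).trans (Finset.sum_le_sum ?_)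
  intro i hi
  rw [Finset.mem_range] at hi
  rw [abs_mul, abs_pow]
  refine mul_le_mul_of_nonneg_left ?_ (abs_nonneg _)
  calc |x| ^ i ≤ R ^ i := pow_le_pow_left₀ (abs_nonneg _) hx _
    _ ≤ R ^ k := pow_le_pow_right₀ hR (by omega)

theorem abs_pow_sub_pow_le {R x y : ℝ} (hx : |x| ≤ R) (hy : |y| ≤ R) (i : ℕ) :
    |x ^ i - y ^ i| ≤ i * R ^ (i - 1) * |x - y| := by
  have hR : 0 ≤ R := (abs_nonneg x).trans hx
  rw [← (Commute.all x y).geom_sum₂_mul, abs_mul]
  refine mul_le_mul_of_nonneg_right ?_ (abs_nonneg _)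
  refine (Finset.abs_sum_le_sum_abs _ _).trans ?_
  calc ∑ j ∈ Finset.range i, |x ^ j * y ^ (i - 1 - j)|
      ≤ ∑ j ∈ Finset.range i, R ^ (i - 1) := by
        refine Finset.sum_le_sum ?_
        intro j hj
        rw [Finset.mem_range] at hj
        rw [abs_mul, abs_pow, abs_pow]
        calc |x| ^ j * |y| ^ (i - 1 - j) ≤ R ^ j * R ^ (i - 1 - j) := by
              refine mul_le_mul (pow_le_pow_left₀ (abs_nonneg _) hx _)
                (pow_le_pow_left₀ (abs_nonneg _) hy _) (by positivity) (by positivity)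
          _ = R ^ (i - 1) := by
              rw [← pow_add]
              congr 1
              omega
    _ = i * R ^ (i - 1) := by simp

/-- Lipschitz bound for a polynomial of degree at most `k + 1` -/
theorem abs_eval_sub_le (h : ℝ[X]) {k : ℕ} (hk : h.natDegree ≤ k + 1) :
    ∃ C : ℝ, 0 ≤ C ∧ ∀ R x y : ℝ, 1 ≤ R → |x| ≤ R → |y| ≤ R →
      |h.eval x - h.eval y| ≤ C * R ^ k * |x - y| := by
  refine ⟨∑ i ∈ Finset.range (h.natDegree + 1), |h.coeff i| * i,
    Finset.sum_nonneg fun _ _ => by positivity, ?_⟩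
  intro R x y hR hx hy
  rw [eval_eq_sum_range, eval_eq_sum_range, ← Finset.sum_sub_distrib, Finset.sum_mul,
    Finset.sum_mul]
  refine (Finset.abs_sum_le_sum_abs _ _).trans (Finset.sum_le_sum ?_)
  intro i hi
  rw [Finset.mem_range] at hi
  rw [← mul_sub, abs_mul, mul_assoc, mul_assoc, ← mul_assoc (i : ℝ)]
  refine mul_le_mul_of_nonneg_left ?_ (abs_nonneg _)
  refine (abs_pow_sub_pow_le hx hy i).trans ?_
  refine mul_le_mul_of_nonneg_right ?_ (abs_nonneg _)
  refine mul_le_mul_of_nonneg_left ?_ (by positivity)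
  exact pow_le_pow_right₀ hR (by omega)

/-- separation at the real place, for large radius -/
theorem real_sep {d : ℕ} (hd : 3 ≤ d) (g : ℝ[X]) (hg : g.natDegree = d) :
    ∃ R₀ C : ℝ, 1 ≤ R₀ ∧ 1 ≤ C ∧ ∀ (c R : ℝ) (S : Finset ℝ),
      (∀ x ∈ S, g.eval x + c ∈ S) → R₀ ≤ R → (∀ x ∈ S, |x| ≤ R) → (∃ x ∈ S, |x| = R) →
      ∀ x ∈ S, ∀ y ∈ S, (0 < x * y ∧ |x - y| ≤ C / R ^ (d - 2)) ∨ (x * y < 0 ∧ Even d) := by
  set a := g.leadingCoeff with ha
  have ha0 : a ≠ 0 := by
    rw [ha, Ne, leadingCoeff_eq_zero]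
    rintro rfl
    simp at hg
    omega
  have haP : 0 < |a| := abs_pos.mpr ha0
  set h := g.eraseLead with hh
  have hdeg : h.natDegree ≤ d - 1 := by
    rw [hh, ← hg]
    exact eraseLead_natDegree_le g
  have hgx : ∀ x : ℝ, g.eval x = a * x ^ d + h.eval x := by
    intro x
    conv_lhs => rw [← g.eraseLead_add_monomial_natDegree_leadingCoeff]
    rw [eval_add, eval_monomial, hg]
    ring
  obtain ⟨C1, hC1, hb1⟩ := abs_eval_le h hdeg
  obtain ⟨C2, hC2, hb2⟩ := abs_eval_sub_le h (k := d - 2) (by omega)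
  set δ : ℝ := 1 / 8 with hδ
  -- the radius
  refine ⟨1 + (4 * C1 + 8) / |a| * 8 ^ d + 2 * C2 / |a| * 8 ^ d,
    1 + 4 * 8 ^ (d - 1) / |a|, ?_, ?_, ?_⟩
  · have : 0 ≤ (4 * C1 + 8) / |a| * 8 ^ d + 2 * C2 / |a| * 8 ^ d := by positivity
    linarith
  · have : 0 ≤ 4 * 8 ^ (d - 1) / |a| := by positivity
    linarith
  intro c R S hS hR hRS hRx
  have h8 : (1 : ℝ) ≤ 8 ^ d := one_le_pow₀ (by norm_num)
  have hR1 : 1 ≤ R := by
    have : 0 ≤ (4 * C1 + 8) / |a| * 8 ^ d + 2 * C2 / |a| * 8 ^ d := by positivity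
    linarith
  have hR0 : 0 < R := by linarith
  have hRa : (4 * C1 + 8) * 8 ^ d ≤ |a| * R := by
    have h1 : (4 * C1 + 8) / |a| * 8 ^ d ≤ R := by
      have : 0 ≤ 2 * C2 / |a| * 8 ^ d := by positivity
      linarith
    calc (4 * C1 + 8) * 8 ^ d = |a| * ((4 * C1 + 8) / |a| * 8 ^ d) := by field_simp
      _ ≤ |a| * R := mul_le_mul_of_nonneg_left h1 haP.le
  have hRb : 2 * C2 * 8 ^ d ≤ |a| * R := by
    have h1 : 2 * C2 / |a| * 8 ^ d ≤ R := by
      have : 0 ≤ (4 * C1 + 8) / |a| * 8 ^ d := by positivity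
      linarith
    calc 2 * C2 * 8 ^ d = |a| * (2 * C2 / |a| * 8 ^ d) := by field_simp
      _ ≤ |a| * R := mul_le_mul_of_nonneg_left h1 haP.le
  -- all elements are large
  have hRd : R ^ d = R * R ^ (d - 1) := by
    rw [← pow_succ']
    congr 1
    omega
  have hRd1 : 1 ≤ R ^ (d - 1) := one_le_pow₀ hR1
  have hRle : R ≤ R ^ (d - 1) := by
    calc R = R ^ 1 := (pow_one R).symm
      _ ≤ R ^ (d - 1) := pow_le_pow_right₀ hR1 (by omega)
  have hbig : (4 * C1 + 8) * 8 ^ d * R ^ (d - 1) ≤ |a| * R ^ d := by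
    rw [hRd, ← mul_assoc]
    exact mul_le_mul_of_nonneg_right hRa (by positivity)
  have hlow : ∀ y ∈ S, R / 8 ≤ |y| := by
    intro y hy
    by_contra hlt
    push Not at hlt
    obtain ⟨x, hx, hxR⟩ := hRx
    have h1 := hRS _ (hS x hx)
    have h2 := hRS _ (hS y hy)
    rw [hgx] at h1 h2
    have h3 : |a| * R ^ d ≤ |a| * |y| ^ d + 2 * C1 * R ^ (d - 1) + 2 * R := by
      have e1 : a * x ^ d = (a * x ^ d + h.eval x + c) - (a * y ^ d + h.eval y + c)
        + a * y ^ d - h.eval x + h.eval y := by ring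
      have e2 : |a| * R ^ d = |a * x ^ d| := by rw [abs_mul, abs_pow, hxR]
      rw [e2, e1]
      have t1 := hb1 R x hR1 (hRS x hx)
      have t2 := hb1 R y hR1 (hRS y hy)
      have t3 : |a * y ^ d| = |a| * |y| ^ d := by rw [abs_mul, abs_pow]
      calc |(a * x ^ d + h.eval x + c) - (a * y ^ d + h.eval y + c) + a * y ^ d - h.eval x + h.eval y|
          ≤ |(a * x ^ d + h.eval x + c) - (a * y ^ d + h.eval y + c) + a * y ^ d - h.eval x| +
            |h.eval y| := abs_add_le _ _
        _ ≤ |(a * x ^ d + h.eval x + c) - (a * y ^ d + h.eval y + c) + a * y ^ d| + |h.eval x| +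
            |h.eval y| := by gcongr; exact abs_sub _ _
        _ ≤ |(a * x ^ d + h.eval x + c) - (a * y ^ d + h.eval y + c)| + |a * y ^ d| + |h.eval x| +
            |h.eval y| := by gcongr; exact abs_add_le _ _
        _ ≤ |a * x ^ d + h.eval x + c| + |a * y ^ d + h.eval y + c| + |a * y ^ d| + |h.eval x| +
            |h.eval y| := by gcongr; exact abs_sub _ _
        _ ≤ |a| * |y| ^ d + 2 * C1 * R ^ (d - 1) + 2 * R := by rw [t3]; linarith
    have h4 : |y| ^ d ≤ R ^ d / 8 := by
      calc |y| ^ d ≤ (R / 8) ^ d := pow_le_pow_left₀ (abs_nonneg _) hlt.le _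
        _ = R ^ d / 8 ^ d := by rw [div_pow]
        _ ≤ R ^ d / 8 := by
          refine div_le_div_of_nonneg_left (by positivity) (by norm_num) ?_
          calc (8 : ℝ) = 8 ^ 1 := by norm_num
            _ ≤ 8 ^ d := pow_le_pow_right₀ (by norm_num) (by omega)
    have h5 : |a| * |y| ^ d ≤ |a| * (R ^ d / 8) := mul_le_mul_of_nonneg_left h4 haP.le
    have h6 : (4 * C1 + 8) * R ^ (d - 1) ≤ (4 * C1 + 8) * 8 ^ d * R ^ (d - 1) := by
      have : (4 * C1 + 8) * 1 * R ^ (d - 1) ≤ (4 * C1 + 8) * 8 ^ d * R ^ (d - 1) := by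
        gcongr
      linarith
    nlinarith [h3, h5, h6, hbig, hRle]
  intro x hx y hy
  have hx0 : x ≠ 0 := by
    intro h0
    have := hlow x hx
    rw [h0, abs_zero] at this
    linarith
  have hy0 : y ≠ 0 := by
    intro h0
    have := hlow y hy
    rw [h0, abs_zero] at this
    linarith
  have hdiff : |g.eval x - g.eval y| ≤ 2 * R := by
    have h1 := hRS _ (hS x hx)
    have h2 := hRS _ (hS y hy)
    calc |g.eval x - g.eval y| = |(g.eval x + c) - (g.eval y + c)| := by ring_nf
      _ ≤ |g.eval x + c| + |g.eval y + c| := abs_sub _ _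
      _ ≤ 2 * R := by linarith
  rcases lt_or_gt_of_ne (mul_ne_zero hx0 hy0) with hxy | hxy
  · right
    refine ⟨hxy, ?_⟩
    by_contra hodd
    rw [Nat.not_even_iff_odd] at hodd
    -- opposite signs with odd degree
    have e1 : |x ^ d - y ^ d| = |x| ^ d + |y| ^ d := by
      rcases lt_trichotomy x 0 with hx' | hx' | hx'
      · have hy' : 0 < y := by
          by_contra hcon
          push Not at hcon
          nlinarith
        have e2 : x ^ d < 0 := hodd.pow_neg hx'
        have e3 : 0 < y ^ d := pow_pos hy' _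
        rw [abs_of_neg (by linarith), abs_of_neg hx', abs_of_pos hy', hodd.neg_pow]
        ring
      · exact absurd hx' hx0
      · have hy' : y < 0 := by
          by_contra hcon
          push Not at hcon
          nlinarith
        have e2 : y ^ d < 0 := hodd.pow_neg hy'
        have e3 : 0 < x ^ d := pow_pos hx' _
        rw [abs_of_pos (by linarith), abs_of_pos hx', abs_of_neg hy', hodd.neg_pow]
        ring
    have e4 : |a| * |x ^ d - y ^ d| ≤ 2 * R + 2 * C1 * R ^ (d - 1) := by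
      have t1 := hb1 R x hR1 (hRS x hx)
      have t2 := hb1 R y hR1 (hRS y hy)
      rw [← abs_mul]
      have e5 : a * (x ^ d - y ^ d) = (g.eval x - g.eval y) - h.eval x + h.eval y := by
        rw [hgx, hgx]; ring
      rw [e5]
      calc |(g.eval x - g.eval y) - h.eval x + h.eval y|
          ≤ |(g.eval x - g.eval y) - h.eval x| + |h.eval y| := abs_add_le _ _
        _ ≤ |g.eval x - g.eval y| + |h.eval x| + |h.eval y| := by gcongr; exact abs_sub _ _
        _ ≤ _ := by linarith
    have e6 : |a| * (R ^ d / 8 ^ d) ≤ |a| * |x ^ d - y ^ d| := by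
      refine mul_le_mul_of_nonneg_left ?_ haP.le
      rw [e1, ← div_pow]
      have := pow_le_pow_left₀ (by positivity) (hlow x hx) d
      have h0 : 0 ≤ |y| ^ d := by positivity
      linarith
    have e7 : (4 * C1 + 8) * R ^ (d - 1) ≤ |a| * (R ^ d / 8 ^ d) := by
      rw [← mul_div_assoc, le_div_iff₀ (by positivity)]
      calc (4 * C1 + 8) * R ^ (d - 1) * 8 ^ d = (4 * C1 + 8) * 8 ^ d * R ^ (d - 1) := by ring
        _ ≤ _ := hbig
    nlinarith [e4, e6, e7, hRle]
  · left
    refine ⟨hxy, ?_⟩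
    -- same sign
    have key : ∀ s t : ℝ, 0 ≤ t → t ≤ s → (s - t) * s ^ (d - 1) ≤ s ^ d - t ^ d := by
      intro s t ht hts
      have hs : s ^ d = s * s ^ (d - 1) := by rw [← pow_succ']; congr 1; omega
      have ht' : t ^ d = t * t ^ (d - 1) := by rw [← pow_succ']; congr 1; omega
      have h1 : t ^ (d - 1) ≤ s ^ (d - 1) := pow_le_pow_left₀ ht hts _
      rw [hs, ht']
      nlinarith [mul_le_mul_of_nonneg_left h1 ht]
    have e1 : |x - y| * (R / 8) ^ (d - 1) ≤ |x ^ d - y ^ d| := by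
      have e2 : |x - y| = |(|x| - |y|)| := by
        rcases lt_or_gt_of_ne hx0 with hx' | hx'
        · have hy' : y < 0 := by
            by_contra hcon
            push Not at hcon
            nlinarith
          rw [abs_of_neg hx', abs_of_neg hy', abs_sub_comm]
          congr 1
          ring
        · have hy' : 0 < y := by
            by_contra hcon
            push Not at hcon
            nlinarith
          rw [abs_of_pos hx', abs_of_pos hy']
      have e3 : |(|x| ^ d - |y| ^ d)| ≤ |x ^ d - y ^ d| := by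
        rw [← abs_pow, ← abs_pow]
        exact abs_abs_sub_abs_le _ _
      refine le_trans ?_ e3
      rw [e2]
      rcases le_total (|y|) (|x|) with hle | hle
      · have h1 := key (|x|) (|y|) (abs_nonneg _) hle
        have h2 : (R / 8) ^ (d - 1) ≤ |x| ^ (d - 1) :=
          pow_le_pow_left₀ (by positivity) (hlow x hx) _
        have h3 : 0 ≤ |x| ^ d - |y| ^ d := by
          have := pow_le_pow_left₀ (abs_nonneg y) hle d
          linarith
        rw [abs_of_nonneg (by linarith), abs_of_nonneg h3]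
        refine le_trans ?_ h1
        exact mul_le_mul_of_nonneg_left h2 (by linarith)
      · have h1 := key (|y|) (|x|) (abs_nonneg _) hle
        have h2 : (R / 8) ^ (d - 1) ≤ |y| ^ (d - 1) :=
          pow_le_pow_left₀ (by positivity) (hlow y hy) _
        have h3 : 0 ≤ |y| ^ d - |x| ^ d := by
          have := pow_le_pow_left₀ (abs_nonneg x) hle d
          linarith
        rw [abs_sub_comm, abs_sub_comm (|x| ^ d), abs_of_nonneg (by linarith), abs_of_nonneg h3]
        refine le_trans ?_ h1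
        exact mul_le_mul_of_nonneg_left h2 (by linarith)
    have e4 : |a| * |x ^ d - y ^ d| ≤ 2 * R + C2 * R ^ (d - 2) * |x - y| := by
      have t1 := hb2 R x y hR1 (hRS x hx) (hRS y hy)
      rw [← abs_mul]
      have e5 : a * (x ^ d - y ^ d) = (g.eval x - g.eval y) - (h.eval x - h.eval y) := by
        rw [hgx, hgx]; ring
      rw [e5]
      calc |(g.eval x - g.eval y) - (h.eval x - h.eval y)|
          ≤ |g.eval x - g.eval y| + |h.eval x - h.eval y| := abs_sub _ _
        _ ≤ _ := by linarith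
    have hRd2 : R ^ (d - 1) = R * R ^ (d - 2) := by
      rw [← pow_succ']
      congr 1
      omega
    have h8d : (8 : ℝ) ^ d = 8 * 8 ^ (d - 1) := by
      rw [← pow_succ']
      congr 1
      omega
    have e6 : C2 * R ^ (d - 2) ≤ |a| * (R / 8) ^ (d - 1) / 2 := by
      rw [div_pow, hRd2, le_div_iff₀ (by norm_num), ← mul_div_assoc, le_div_iff₀ (by positivity)]
      have h1 : 2 * C2 * 8 ^ (d - 1) ≤ |a| * R := by
        refine le_trans ?_ hRb
        rw [h8d]
        have : 0 ≤ C2 * 8 ^ (d - 1) := by positivity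
        nlinarith
      have h2 : 0 ≤ R ^ (d - 2) := by positivity
      nlinarith [mul_le_mul_of_nonneg_right h1 h2]
    have e7 : |x - y| * (|a| * (R / 8) ^ (d - 1) / 2) ≤ 2 * R := by
      have h1 : |x - y| * (C2 * R ^ (d - 2)) ≤ |x - y| * (|a| * (R / 8) ^ (d - 1) / 2) :=
        mul_le_mul_of_nonneg_left e6 (abs_nonneg _)
      have h2 : |a| * (|x - y| * (R / 8) ^ (d - 1)) ≤ |a| * |x ^ d - y ^ d| :=
        mul_le_mul_of_nonneg_left e1 haP.le
      nlinarith
    have e8 : |x - y| * R ^ (d - 2) ≤ 4 * 8 ^ (d - 1) / |a| := by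
      rw [le_div_iff₀ haP]
      rw [div_pow, hRd2] at e7
      have h1 : |x - y| * (|a| * (R * R ^ (d - 2) / 8 ^ (d - 1)) / 2) =
          (|x - y| * R ^ (d - 2) * |a|) * R / (2 * 8 ^ (d - 1)) := by
        field_simp
      rw [h1, div_le_iff₀ (by positivity)] at e7
      have h2 : (|x - y| * R ^ (d - 2) * |a|) * R ≤ (4 * 8 ^ (d - 1)) * R := by
        calc (|x - y| * R ^ (d - 2) * |a|) * R ≤ 2 * R * (2 * 8 ^ (d - 1)) := e7
          _ = (4 * 8 ^ (d - 1)) * R := by ring
      exact le_of_mul_le_mul_right h2 hR0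
    rw [le_div_iff₀ (by positivity)]
    linarith

end Pool.Agent.TransPre
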