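import Mathlib
import Pool.Agent.TransPre.Count
import Pool.Agent.TransPre.RealPl

set_option autoImplicit false

namespace Pool.Agent.TransPre

open Polynomial

/-- The contribution of the real place. -/
theorem real_place {d : ℕ} (hd : 3 ≤ d) (g : ℚ[X]) (hg : g.natDegree = d) :
    ∃ K : ℝ, 0 ≤ K ∧ ∀ (c : ℚ) (S : Finset ℚ) (R : ℝ), (∀ x ∈ S, g.eval x + c ∈ S) → 1 ≤ R →
      (∀ x ∈ S, |(x : ℝ)| ≤ R) → (R = 1 ∨ ∃ x ∈ S, |(x : ℝ)| = R) → S.Nonempty →
      Real.log (max 1 |(c : ℝ)|) ≤ K + d * Real.log R ∧
      ∀ S' ⊆ S, ∑ p ∈ S'.offDiag, Real.log |(p.1 : ℝ) - p.2| ≤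
        K * (S'.card : ℝ) ^ 2 -
          (d - 2 : ℝ) * ((S'.card : ℝ) ^ 2 / d - S'.card) * Real.log R := by
  classical
  set gR : ℝ[X] := g.map (algebraMap ℚ ℝ) with hgR
  have hgRd : gR.natDegree = d := by
    rw [hgR, natDegree_map]
    exact hg
  have heval : ∀ x : ℚ, gR.eval (x : ℝ) = ((g.eval x : ℚ) : ℝ) := by
    intro x
    have := eval_map_algebraMap g (x : ℝ)
    rw [hgR, eval_map]
    have h2 := Polynomial.eval₂_at_apply (p := g) (algebraMap ℚ ℝ) x
    simpa using h2
  obtain ⟨C0, hC0, hb0⟩ := abs_eval_le gR hgRd.le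
  obtain ⟨R₀, C, hR₀, hC, hsep⟩ := real_sep hd gR hgRd
  have hlR0 : 0 ≤ Real.log (R₀ + 1) := Real.log_nonneg (by linarith)
  have hlC : 0 ≤ Real.log C := Real.log_nonneg hC
  have hl2 : 0 ≤ Real.log 2 := Real.log_nonneg (by norm_num)
  have hl0 : 0 ≤ Real.log (1 + C0) := Real.log_nonneg (by linarith)
  refine ⟨Real.log (1 + C0) + Real.log 2 + 2 * Real.log (R₀ + 1) + Real.log C, by linarith, ?_⟩
  intro c S R hS hR hRS hRx hne
  have hlR : 0 ≤ Real.log R := Real.log_nonneg hR
  have hd' : (3 : ℝ) ≤ d := by exact_mod_cast hd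
  constructor
  · -- the bound for c
    obtain ⟨x, hx⟩ := hne
    have h1 := hRS _ (hS x hx)
    have h2 := hb0 R x hR (hRS x hx)
    rw [heval] at h2
    have h3 : |(c : ℝ)| ≤ (1 + C0) * R ^ d := by
      have e1 : (c : ℝ) = ((g.eval x + c : ℚ) : ℝ) - ((g.eval x : ℚ) : ℝ) := by
        push_cast; ring
      rw [e1]
      have e2 : R ≤ R ^ d := by
        calc R = R ^ 1 := (pow_one R).symm
          _ ≤ R ^ d := pow_le_pow_right₀ hR (by omega)
      refine (abs_sub _ _).trans ?_
      linarith
    have h4 : max 1 |(c : ℝ)| ≤ (1 + C0) * R ^ d := by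
      refine max_le ?_ h3
      have e3 : (1 : ℝ) ≤ R ^ d := one_le_pow₀ hR
      nlinarith
    have h5 : Real.log (max 1 |(c : ℝ)|) ≤ Real.log ((1 + C0) * R ^ d) :=
      Real.log_le_log (by positivity) h4
    rw [Real.log_mul (by positivity) (by positivity), Real.log_pow] at h5
    linarith
  · intro S' hS'
    set m : ℝ := (S'.card : ℝ) with hm
    have hm0 : 0 ≤ m := by positivity
    have hmm : ((S'.offDiag.card : ℕ) : ℝ) = m ^ 2 - m := by
      rw [Finset.offDiag_card, Nat.cast_sub (Nat.le_mul_self _)]
      push_cast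
      rw [← hm]
      ring
    have hmm0 : 0 ≤ m ^ 2 - m := by rw [← hmm]; positivity
    rcases lt_or_ge R (R₀ + 1) with hlt | hge
    · -- small radius
      have h1 : ∑ p ∈ S'.offDiag, Real.log |(p.1 : ℝ) - p.2| ≤
          ∑ p ∈ S'.offDiag, (Real.log 2 + Real.log (R₀ + 1)) := by
        refine Finset.sum_le_sum ?_
        rintro ⟨x, y⟩ hp
        rw [Finset.mem_offDiag] at hp
        rw [← Real.log_mul (by norm_num) (by positivity)]
        refine Real.log_le_log ?_ ?_
        · rw [abs_pos, sub_ne_zero]
          exact_mod_cast hp.2.2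
        · refine (abs_sub _ _).trans ?_
          have e1 := hRS x (hS' hp.1)
          have e2 := hRS y (hS' hp.2.1)
          linarith
      rw [Finset.sum_const, nsmul_eq_mul, hmm] at h1
      have h2 : (d - 2 : ℝ) * (m ^ 2 / d - m) * Real.log R ≤ m ^ 2 * Real.log (R₀ + 1) := by
        have e1 : (d - 2 : ℝ) * (m ^ 2 / d - m) ≤ m ^ 2 := by
          have e2 : m ^ 2 / d * d = m ^ 2 := by field_simp
          have e3 : 0 ≤ m ^ 2 / d := by positivity
          nlinarith
        have e4 : Real.log R ≤ Real.log (R₀ + 1) := Real.log_le_log (by linarith) hlt.le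
        calc (d - 2 : ℝ) * (m ^ 2 / d - m) * Real.log R ≤ m ^ 2 * Real.log R :=
              mul_le_mul_of_nonneg_right e1 hlR
          _ ≤ m ^ 2 * Real.log (R₀ + 1) := mul_le_mul_of_nonneg_left e4 (by positivity)
      have h3 : (m ^ 2 - m) * (Real.log 2 + Real.log (R₀ + 1)) ≤
          m ^ 2 * (Real.log 2 + Real.log (R₀ + 1)) := by
        refine mul_le_mul_of_nonneg_right (by linarith) (by linarith)
      have h4 : 0 ≤ m ^ 2 * Real.log (1 + C0) := by positivity
      have h5 : 0 ≤ m ^ 2 * Real.log C := by positivity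
      nlinarith [h1, h2, h3, h4, h5]
    · -- large radius
      have hRne : R ≠ 1 := by
        intro h
        linarith
      obtain ⟨x0, hx0, hx0R⟩ := hRx.resolve_left hRne
      have hsep' : ∀ x ∈ S, ∀ y ∈ S, (0 < (x : ℝ) * y ∧ |(x : ℝ) - y| ≤ C / R ^ (d - 2)) ∨
          ((x : ℝ) * y < 0 ∧ Even d) := by
        have := hsep (c : ℝ) R (S.image (fun x : ℚ => (x : ℝ))) ?_ (by linarith) ?_ ?_
        · intro x hx y hy
          exact this x (Finset.mem_image_of_mem _ hx) y (Finset.mem_image_of_mem _ hy)
        · intro x hx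
          rw [Finset.mem_image] at hx ⊢
          obtain ⟨y, hy, rfl⟩ := hx
          refine ⟨_, hS y hy, ?_⟩
          rw [heval]
          push_cast
          rfl
        · intro x hx
          rw [Finset.mem_image] at hx
          obtain ⟨y, hy, rfl⟩ := hx
          exact hRS y hy
        · exact ⟨x0, Finset.mem_image_of_mem _ hx0, hx0R⟩
      -- sign classes
      set τ : ℚ → Bool := fun x => decide (0 < (x : ℝ)) with hτ
      have hτsame : ∀ x ∈ S, ∀ y ∈ S, τ x = τ y → 0 < (x : ℝ) * y := by
        intro x hx y hy hxy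
        rcases hsep' x hx y hy with h | h
        · exact h.1
        · exfalso
          simp only [hτ, decide_eq_decide] at hxy
          rcases lt_trichotomy (x : ℝ) 0 with h0 | h0 | h0
          · have : ¬ 0 < (y : ℝ) := fun h1 => absurd (hxy.mpr h1) (not_lt.mpr h0.le)
            push Not at this
            nlinarith [h.1]
          · rw [h0, zero_mul] at h
            exact lt_irrefl _ h.1
          · have h2 := hxy.mp h0
            nlinarith [h.1]
      have hcount : (2 / d : ℝ) * m ^ 2 - m ≤
          (((S'.offDiag.filter (fun p => τ p.1 = τ p.2)).card : ℕ) : ℝ) := by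
        by_cases hev : Even d
        · have hd4 : 4 ≤ d := by
            obtain ⟨k, hk⟩ := hev
            omega
          have h1 := same_pairs S' τ (k := 2) (by
            refine (Finset.card_le_univ _).trans ?_
            simp)
          have h2 : m ^ 2 ≤ 2 * ((((S'.offDiag.filter (fun p => τ p.1 = τ p.2)).card : ℕ) : ℝ) + m) := by
            rw [hm]
            exact_mod_cast h1
          have h3 : (2 / d : ℝ) ≤ 1 / 2 := by
            rw [div_le_div_iff₀ (by positivity) (by norm_num)]
            have : (4 : ℝ) ≤ d := by exact_mod_cast hd4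
            linarith
          nlinarith [mul_le_mul_of_nonneg_right h3 (sq_nonneg m)]
        · have h1 := same_pairs S' τ (k := 1) (by
            rw [Finset.card_le_one]
            intro s hs t ht
            rw [Finset.mem_image] at hs ht
            obtain ⟨x, hx, rfl⟩ := hs
            obtain ⟨y, hy, rfl⟩ := ht
            rcases hsep' x (hS' hx) y (hS' hy) with h | h
            · simp only [hτ, decide_eq_decide]
              constructor
              · intro h0
                exact (pos_iff_pos_of_mul_pos h.1).mp h0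
              · intro h0
                exact (pos_iff_pos_of_mul_pos h.1).mpr h0
            · exact absurd h.2 hev)
          have h2 : m ^ 2 ≤ 1 * ((((S'.offDiag.filter (fun p => τ p.1 = τ p.2)).card : ℕ) : ℝ) + m) := by
            rw [hm]
            exact_mod_cast h1
          have h3 : (2 / d : ℝ) ≤ 1 := by
            rw [div_le_one (by positivity)]
            linarith
          nlinarith [mul_le_mul_of_nonneg_right h3 (sq_nonneg m)]
      have h1 : ∑ p ∈ S'.offDiag, Real.log |(p.1 : ℝ) - p.2| ≤
          ∑ p ∈ S'.offDiag, ((Real.log C + Real.log 2 + Real.log R) -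
            (if τ p.1 = τ p.2 then (d - 1 : ℝ) * Real.log R else 0)) := by
        refine Finset.sum_le_sum ?_
        rintro ⟨x, y⟩ hp
        rw [Finset.mem_offDiag] at hp
        have hpos : 0 < |(x : ℝ) - y| := by
          rw [abs_pos, sub_ne_zero]
          exact_mod_cast hp.2.2
        simp only
        split_ifs with hxy
        · have h2 := hτsame x (hS' hp.1) y (hS' hp.2.1) hxy
          rcases hsep' x (hS' hp.1) y (hS' hp.2.1) with h | h
          · have h3 : Real.log |(x : ℝ) - y| ≤ Real.log (C / R ^ (d - 2)) :=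
              Real.log_le_log hpos h.2
            rw [Real.log_div (by positivity) (by positivity), Real.log_pow,
              Nat.cast_sub (by omega)] at h3
            push_cast at h3
            linarith
          · exact absurd h2 (not_lt.mpr h.1.le)
        · have h3 : |(x : ℝ) - y| ≤ 2 * R := by
            refine (abs_sub _ _).trans ?_
            have e1 := hRS x (hS' hp.1)
            have e2 := hRS y (hS' hp.2.1)
            linarith
          have h4 : Real.log |(x : ℝ) - y| ≤ Real.log (2 * R) := Real.log_le_log hpos h3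
          rw [Real.log_mul (by norm_num) (by positivity)] at h4
          linarith
      rw [Finset.sum_sub_distrib, Finset.sum_const, nsmul_eq_mul, hmm, ← Finset.sum_filter,
        Finset.sum_const, nsmul_eq_mul] at h1
      set N := (((S'.offDiag.filter (fun p => τ p.1 = τ p.2)).card : ℕ) : ℝ) with hN
      have h2 : (2 / d * m ^ 2 - m) * ((d - 1 : ℝ) * Real.log R) ≤ N * ((d - 1 : ℝ) * Real.log R) :=
        mul_le_mul_of_nonneg_right hcount (mul_nonneg (by linarith) hlR)
      have h3 : (m ^ 2 - m) * Real.log R - (2 / d * m ^ 2 - m) * ((d - 1 : ℝ) * Real.log R) =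
          - ((d - 2 : ℝ) * (m ^ 2 / d - m) * Real.log R) := by
        field_simp
        ring
      have h4 : (m ^ 2 - m) * (Real.log C + Real.log 2) ≤ m ^ 2 * (Real.log C + Real.log 2) :=
        mul_le_mul_of_nonneg_right (by linarith) (by linarith)
      have h5 : 0 ≤ m ^ 2 * Real.log (1 + C0) := by positivity
      have h6 : 0 ≤ m ^ 2 * Real.log (R₀ + 1) := by positivity
      nlinarith [h1, h2, h3, h4, h5, h6]

end Pool.Agent.TransPre
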