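import Mathlib

set_option autoImplicit false

namespace Pool.Agent.TransPre

open Polynomial

/-- product of iterates of `f` with exponents the entries of the list -/
noncomputable def PL (f : ℚ[X]) : List ℕ → ℚ[X]
  | [] => 1
  | (r :: l) => X ^ r * (PL f l).comp f

/-- exponent of the leading coefficient -/
def eL (d : ℕ) : List ℕ → ℕ
  | [] => 0
  | (_ :: l) => Nat.ofDigits d l + eL d l

/-- integer value -/
def ML (n : ℚ → ℤ) (F : ℚ → ℚ) : List ℕ → ℚ → ℤ
  | [], _ => 1
  | (r :: l), x => n x ^ r * ML n F l (F x)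

theorem PL_ne_zero {f : ℚ[X]} {d : ℕ} (hd : 2 ≤ d) (hf : f.natDegree = d) (l : List ℕ) :
    PL f l ≠ 0 := by
  induction l with
  | nil => simp [PL]
  | cons r l ih =>
    simp only [PL]
    refine mul_ne_zero (pow_ne_zero _ X_ne_zero) ?_
    intro h
    rw [Polynomial.comp_eq_zero_iff] at h
    rcases h with h | h
    · exact ih h
    · have h2 := h.2
      rw [h2] at hf
      simp at hf
      omega

theorem natDegree_PL {f : ℚ[X]} {d : ℕ} (hd : 2 ≤ d) (hf : f.natDegree = d) (l : List ℕ) :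
    (PL f l).natDegree = Nat.ofDigits d l := by
  induction l with
  | nil => simp [PL]
  | cons r l ih =>
    have h0 : (PL f l).comp f ≠ 0 := by
      have := PL_ne_zero hd hf (r :: l)
      simp only [PL] at this
      exact right_ne_zero_of_mul this
    simp only [PL]
    rw [natDegree_mul (pow_ne_zero _ X_ne_zero) h0, natDegree_X_pow, natDegree_comp, ih, hf,
      Nat.ofDigits_cons]
    simp [mul_comm]

theorem leadingCoeff_PL {f : ℚ[X]} {d : ℕ} (hd : 2 ≤ d) (hf : f.natDegree = d) (l : List ℕ) :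
    (PL f l).leadingCoeff = f.leadingCoeff ^ eL d l := by
  induction l with
  | nil => simp [PL, eL]
  | cons r l ih =>
    simp only [PL]
    rw [leadingCoeff_mul, leadingCoeff_X_pow, one_mul, leadingCoeff_comp (by omega), ih,
      natDegree_PL hd hf]
    simp only [eL]
    ring

theorem eL_le {d : ℕ} (hd : 2 ≤ d) (l : List ℕ) : eL d l ≤ Nat.ofDigits d l := by
  induction l with
  | nil => simp [eL]
  | cons r l ih =>
    simp only [eL, Nat.ofDigits_cons]
    have : 2 * Nat.ofDigits d l ≤ d * Nat.ofDigits d l := Nat.mul_le_mul_right _ hd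
    omega

theorem cast_ML {n : ℚ → ℤ} {f : ℚ[X]} {S : Finset ℚ} {b : ℕ}
    (hS : ∀ x ∈ S, f.eval x ∈ S) (hn : ∀ x ∈ S, ((n x : ℤ) : ℚ) = b * x) (l : List ℕ) :
    ∀ x ∈ S, ((ML n (fun y => f.eval y) l x : ℤ) : ℚ) = (b : ℚ) ^ l.sum * (PL f l).eval x := by
  induction l with
  | nil => intro x _; simp [ML, PL]
  | cons r l ih =>
    intro x hx
    simp only [ML, PL, List.sum_cons, eval_mul, eval_pow, eval_X, eval_comp]
    push_cast
    rw [ih _ (hS x hx), hn x hx]
    ring

theorem sum_digits_le {d : ℕ} (hd : 2 ≤ d) {T k : ℕ} (hk : k < d ^ T) :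
    (Nat.digits d k).sum ≤ T * (d - 1) := by
  have h1 : (Nat.digits d k).length ≤ T := by
    rw [Nat.digits_length_le_iff (by omega)]
    exact hk
  have h2 : (Nat.digits d k).sum ≤ (Nat.digits d k).length • (d - 1) := by
    refine List.sum_le_card_nsmul _ _ ?_
    intro x hx
    have := Nat.digits_lt_base (by omega : 1 < d) hx
    omega
  calc (Nat.digits d k).sum ≤ (Nat.digits d k).length • (d - 1) := h2
    _ ≤ T * (d - 1) := by
      rw [smul_eq_mul]
      exact Nat.mul_le_mul_right _ h1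

/-- Neutral bound: divisibility of the Vandermonde determinant of the numerators. -/
theorem neutral {n : ℚ → ℤ} {f : ℚ[X]} {S : Finset ℚ} {b d : ℕ} (hd : 2 ≤ d)
    (hf : f.natDegree = d)
    (hS : ∀ x ∈ S, f.eval x ∈ S) (hn : ∀ x ∈ S, ((n x : ℤ) : ℚ) = b * x)
    {q A : ℤ} (hA : (A : ℚ) = q * f.leadingCoeff)
    {m : ℕ} (v : Fin m → ℚ) (hv : ∀ i, v i ∈ S) :
    (b : ℤ) ^ (∑ j : Fin m, (j : ℕ)) ∣
      (b : ℤ) ^ (∑ j : Fin m, (Nat.digits d j).sum) * A ^ (∑ j : Fin m, eL d (Nat.digits d j)) *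
        (Matrix.vandermonde (fun i => n (v i))).det := by
  set a : ℚ := f.leadingCoeff with ha
  have ha0 : a ≠ 0 := by
    rw [ha]
    intro h
    rw [leadingCoeff_eq_zero] at h
    rw [h] at hf
    simp at hf
    omega
  -- determinant identity for monic versions
  have h1 : (Matrix.vandermonde v).det = (Matrix.of (fun i j : Fin m =>
      ((C (a ^ eL d (Nat.digits d j))⁻¹ * PL f (Nat.digits d j)).eval (v i)))).det := by
    refine Matrix.det_eval_matrixOfPolynomials_eq_det_vandermonde v
      (fun j => C (a ^ eL d (Nat.digits d j))⁻¹ * PL f (Nat.digits d j)) ?_ ?_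
    · intro j
      rw [natDegree_C_mul (inv_ne_zero (pow_ne_zero _ ha0)), natDegree_PL hd hf,
        Nat.ofDigits_digits]
    · intro j
      unfold Monic
      rw [leadingCoeff_mul, leadingCoeff_C, leadingCoeff_PL hd hf]
      exact inv_mul_cancel₀ (pow_ne_zero _ ha0)
  have h2 : (Matrix.of (fun i j : Fin m => ((ML n (fun y => f.eval y) (Nat.digits d j) (v i) : ℤ) : ℚ))).det
      = (∏ j : Fin m, ((b : ℚ) ^ (Nat.digits d j).sum * a ^ eL d (Nat.digits d j))) *
        (Matrix.vandermonde v).det := by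
    rw [h1, ← Matrix.det_mul_row]
    refine congrArg Matrix.det ?_
    ext i j
    simp only [Matrix.of_apply, eval_mul, eval_C]
    rw [cast_ML hS hn _ _ (hv i)]
    field_simp
  have h3 : (((Matrix.vandermonde (fun i => n (v i))).det : ℤ) : ℚ) =
      (∏ j : Fin m, (b : ℚ) ^ (j : ℕ)) * (Matrix.vandermonde v).det := by
    rw [← Matrix.det_mul_row]
    have : (((Matrix.vandermonde (fun i => n (v i))).det : ℤ) : ℚ) =
        ((Matrix.vandermonde (fun i => n (v i))).map (Int.castRingHom ℚ)).det := by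
      rw [← RingHom.mapMatrix_apply, ← RingHom.map_det]
      rfl
    rw [this]
    refine congrArg Matrix.det ?_
    ext i j
    simp only [Matrix.map_apply, Matrix.vandermonde_apply, Matrix.of_apply, map_pow]
    rw [← mul_pow]
    congr 1
    exact hn _ (hv i)
  refine ⟨q ^ (∑ j : Fin m, eL d (Nat.digits d j)) *
    (Matrix.of (fun i j : Fin m => (ML n (fun y => f.eval y) (Nat.digits d j) (v i) : ℤ))).det, ?_⟩
  have h4 : (((Matrix.of (fun i j : Fin m =>
      (ML n (fun y => f.eval y) (Nat.digits d j) (v i) : ℤ))).det : ℤ) : ℚ) =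
      (Matrix.of (fun i j : Fin m =>
        ((ML n (fun y => f.eval y) (Nat.digits d j) (v i) : ℤ) : ℚ))).det := by
    have : (((Matrix.of (fun i j : Fin m =>
      (ML n (fun y => f.eval y) (Nat.digits d j) (v i) : ℤ))).det : ℤ) : ℚ) =
        ((Matrix.of (fun i j : Fin m =>
      (ML n (fun y => f.eval y) (Nat.digits d j) (v i) : ℤ))).map (Int.castRingHom ℚ)).det := by
      rw [← RingHom.mapMatrix_apply, ← RingHom.map_det]
      rfl
    rw [this]
    refine congrArg Matrix.det ?_
    ext i j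
    simp
  rw [← @Int.cast_inj ℚ]
  simp only [Int.cast_mul, Int.cast_pow, Int.cast_natCast]
  rw [h4, h2, h3, hA, Finset.prod_mul_distrib, Finset.prod_pow_eq_pow_sum,
    Finset.prod_pow_eq_pow_sum, Finset.prod_pow_eq_pow_sum, mul_pow]
  ring

end Pool.Agent.TransPre
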