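import Mathlib

set_option autoImplicit false

namespace Pool.Agent.TransPre

open Polynomial

/-- if a prime power divides a product and only few of it the second factor -/
theorem pow_dvd_of_mul {p : ℕ} (hp : p.Prime) {x y : ℤ} {a e : ℕ}
    (h : (p : ℤ) ^ a ∣ x * y) (hy : ¬ (p : ℤ) ^ (e + 1) ∣ y) : (p : ℤ) ^ (a - e) ∣ x := by
  have hpp : Prime (p : ℤ) := Nat.prime_iff_prime_int.mp hp
  have hy0 : y ≠ 0 := fun h0 => hy (h0 ▸ dvd_zero _)
  have hfin : FiniteMultiplicity (p : ℤ) y :=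
    Int.finiteMultiplicity_iff.mpr ⟨by rw [Int.natAbs_natCast]; exact hp.ne_one, hy0⟩
  obtain ⟨c, hc1, hc2⟩ := hfin.exists_eq_pow_mul_and_not_dvd
  set j := multiplicity (p : ℤ) y with hj
  have hje : j ≤ e := by
    by_contra hlt
    push Not at hlt
    apply hy
    rw [hc1]
    exact Dvd.dvd.mul_right (pow_dvd_pow _ hlt) _
  rcases Nat.lt_or_ge a j with haj | haj
  · have : a - e = 0 := by omega
    rw [this, pow_zero]
    exact one_dvd _
  · have h1 : (p : ℤ) ^ j * (p : ℤ) ^ (a - j) ∣ (p : ℤ) ^ j * (x * c) := by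
      rw [← pow_add, Nat.add_sub_cancel' haj]
      have : (p : ℤ) ^ j * (x * c) = x * y := by rw [hc1]; ring
      rw [this]
      exact h
    have h2 : (p : ℤ) ^ (a - j) ∣ x * c :=
      (mul_dvd_mul_iff_left (pow_ne_zero _ hpp.ne_zero)).mp h1
    have h3 : (p : ℤ) ^ (a - j) ∣ x := hpp.pow_dvd_of_dvd_mul_right _ hc2 h2
    exact (pow_dvd_pow _ (by omega)).trans h3

/-- coprimality of the numerators -/
theorem not_dvd_num {p : ℕ} (hp : p.Prime) {A b : ℤ} {d : ℕ} (hd : 1 ≤ d) {P H : ℤ[X]}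
    (hP : P = C A * X ^ d + C b * H) {e : ℕ} (hA : ¬ (p : ℤ) ^ (e + 1) ∣ A)
    (hb : (p : ℤ) ^ (e + 1) ∣ b) {u y : ℤ} (h : b ∣ P.eval u - P.eval y)
    (hy : ¬ (p : ℤ) ∣ y) : ¬ (p : ℤ) ∣ u := by
  have hpp : Prime (p : ℤ) := Nat.prime_iff_prime_int.mp hp
  intro hu
  have h1 : ¬ (p : ℤ) ∣ (u ^ d - y ^ d) := by
    intro h2
    have h3 : (p : ℤ) ∣ u ^ d := dvd_pow hu (by omega)
    have h4 : (p : ℤ) ∣ y ^ d := by
      have := dvd_sub h3 h2
      simpa using this
    exact hy (hpp.dvd_of_dvd_pow h4)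
  have h2 : (p : ℤ) ^ (e + 1) ∣ A * (u ^ d - y ^ d) := by
    have h3 : A * (u ^ d - y ^ d) = (P.eval u - P.eval y) - b * (H.eval u - H.eval y) := by
      rw [hP]
      simp
      ring
    rw [h3]
    exact dvd_sub (hb.trans h) (hb.trans (Dvd.intro _ rfl))
  exact hA (hpp.pow_dvd_of_dvd_mul_right _ h1 h2)

/-- strong approximation within a class -/
theorem close_of_class {p : ℕ} (hp : p.Prime) {A b : ℤ} {d : ℕ} {P H : ℤ[X]}
    (hP : P = C A * X ^ d + C b * H) {e : ℕ} (hA : ¬ (p : ℤ) ^ (e + 1) ∣ A * d)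
    (hb : (p : ℤ) ^ (e + 1) ∣ b) {u y : ℤ} {w : ℕ} (h : (p : ℤ) ^ w ∣ P.eval u - P.eval y)
    (hy : ¬ (p : ℤ) ∣ y) (huy : (p : ℤ) ^ (e + 1) ∣ u - y) : (p : ℤ) ^ (w - e) ∣ u - y := by
  have hpp : Prime (p : ℤ) := Nat.prime_iff_prime_int.mp hp
  obtain ⟨k, hk⟩ := Polynomial.binomExpansion P y (u - y)
  have hk' : P.eval u - P.eval y = (u - y) * (P.derivative.eval y + k * (u - y)) := by
    have : y + (u - y) = u := by ring
    rw [this] at hk
    rw [hk]
    ring
  rw [hk'] at h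
  refine pow_dvd_of_mul hp h ?_
  intro h1
  apply hA
  have h2 : (p : ℤ) ^ (e + 1) ∣ A * d * y ^ (d - 1) := by
    have h3 : A * d * y ^ (d - 1) = (P.derivative.eval y + k * (u - y)) -
        (b * H.derivative.eval y + k * (u - y)) := by
      rw [hP]
      simp [derivative_X_pow]
      ring
    rw [h3]
    exact dvd_sub h1 (dvd_add (hb.trans (Dvd.intro _ rfl)) (huy.trans (Dvd.intro_left _ rfl)))
  refine hpp.pow_dvd_of_dvd_mul_right _ ?_ h2
  intro h4
  exact hy (hpp.dvd_of_dvd_pow h4)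

/-- number of `d`-th power classes modulo `p` -/
theorem card_class_le {p : ℕ} (hp : p.Prime) {A b : ℤ} {d : ℕ} (hd : 1 ≤ d) {P H : ℤ[X]}
    (hP : P = C A * X ^ d + C b * H) (hA : ¬ (p : ℤ) ∣ A)
    (hb : (p : ℤ) ∣ b) {ι : Type} [DecidableEq ι] (S : Finset ι) (n : ι → ℤ)
    (h : ∀ x ∈ S, ∀ y ∈ S, b ∣ P.eval (n x) - P.eval (n y))
    (hn : ∀ x ∈ S, ¬ (p : ℤ) ∣ n x) :
    (S.image (fun x => n x % (p : ℤ))).card ≤ Nat.gcd d (p - 1) := by
  classical
  have : Fact p.Prime := ⟨hp⟩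
  have hpp : Prime (p : ℤ) := Nat.prime_iff_prime_int.mp hp
  rcases S.eq_empty_or_nonempty with hS | ⟨y0, hy0⟩
  · subst hS
    simp
  have hg : 0 < Nat.gcd d (p - 1) := Nat.gcd_pos_of_pos_left _ (by omega)
  have hy0' : ((n y0 : ℤ) : ZMod p) ≠ 0 := by
    rw [Ne, ZMod.intCast_zmod_eq_zero_iff_dvd]
    exact hn y0 hy0
  -- map into roots of unity
  have hinj : (S.image (fun x => n x % (p : ℤ))).card ≤
      ((Polynomial.nthRoots (Nat.gcd d (p - 1)) (1 : ZMod p)).toFinset).card := by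
    refine Finset.card_le_card_of_injOn
      (fun t : ℤ => ((t : ℤ) : ZMod p) * ((n y0 : ℤ) : ZMod p)⁻¹) ?_ ?_
    · intro t ht
      simp only [Finset.coe_image, Set.mem_image, Finset.mem_coe] at ht
      obtain ⟨x, hx, rfl⟩ := ht
      simp only [Finset.mem_coe, Multiset.mem_toFinset]
      rw [Polynomial.mem_nthRoots hg]
      have hcast : (((n x % (p : ℤ) : ℤ)) : ZMod p) = ((n x : ℤ) : ZMod p) := by
        rw [ZMod.intCast_mod]
      rw [hcast]
      have hx0 : ((n x : ℤ) : ZMod p) ≠ 0 := by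
        rw [Ne, ZMod.intCast_zmod_eq_zero_iff_dvd]
        exact hn x hx
      have h1 : ((n x : ℤ) : ZMod p) ^ d = ((n y0 : ℤ) : ZMod p) ^ d := by
        have h2 : (p : ℤ) ∣ A * (n x ^ d - n y0 ^ d) := by
          have h3 : A * (n x ^ d - n y0 ^ d) = (P.eval (n x) - P.eval (n y0)) -
              b * (H.eval (n x) - H.eval (n y0)) := by
            rw [hP]
            simp
            ring
          rw [h3]
          exact dvd_sub (hb.trans (h x hx y0 hy0)) (hb.trans (Dvd.intro _ rfl))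
        have h4 : (p : ℤ) ∣ n x ^ d - n y0 ^ d := by
          rcases hpp.dvd_or_dvd h2 with h5 | h5
          · exact absurd h5 hA
          · exact h5
        have h6 := (ZMod.intCast_zmod_eq_zero_iff_dvd (n x ^ d - n y0 ^ d) p).mpr h4
        push_cast at h6
        exact sub_eq_zero.mp h6
      refine pow_gcd_eq_one.mpr ⟨?_, ?_⟩
      · rw [mul_pow, h1, ← mul_pow, mul_inv_cancel₀ hy0', one_pow]
      · exact ZMod.pow_card_sub_one_eq_one (mul_ne_zero hx0 (inv_ne_zero hy0'))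
    · intro s hs t ht hst
      simp only [Finset.coe_image, Set.mem_image, Finset.mem_coe] at hs ht
      obtain ⟨x, hx, rfl⟩ := hs
      obtain ⟨z, hz, rfl⟩ := ht
      simp only at hst
      have h1 := mul_right_cancel₀ (inv_ne_zero hy0') hst
      rw [ZMod.intCast_mod, ZMod.intCast_mod] at h1
      rw [ZMod.intCast_eq_intCast_iff] at h1
      exact h1
  refine hinj.trans ?_
  refine (Multiset.toFinset_card_le _).trans ?_
  exact Polynomial.card_nthRoots _ _

theorem two_gcd_le {d p : ℕ} (hd : 2 ≤ d) (hp : p.Prime) (h : p % d ≠ 1) :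
    2 * Nat.gcd d (p - 1) ≤ d := by
  have h1 : Nat.gcd d (p - 1) ∣ d := Nat.gcd_dvd_left _ _
  obtain ⟨k, hk⟩ := h1
  have hk0 : k ≠ 0 := by
    rintro rfl
    simp at hk
    omega
  have hk1 : k ≠ 1 := by
    rintro rfl
    rw [mul_one] at hk
    have h2 : d ∣ p - 1 := by
      have := Nat.gcd_dvd_right d (p - 1)
      rw [← hk] at this
      exact this
    apply h
    obtain ⟨m, hm⟩ := h2
    have h3 : p = d * m + 1 := by
      have := hp.two_le
      omega
    rw [h3, Nat.mul_add_mod]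
    exact Nat.mod_eq_of_lt (by omega)
  have hk2 : 2 ≤ k := by omega
  calc 2 * Nat.gcd d (p - 1) = Nat.gcd d (p - 1) * 2 := by ring
    _ ≤ Nat.gcd d (p - 1) * k := Nat.mul_le_mul_left _ hk2
    _ = d := hk.symm

/-- the scaled polynomial -/
theorem scaleRoots_decomp (G : ℤ[X]) {d : ℕ} (hG : G.natDegree = d) (b : ℤ) :
    ∃ H : ℤ[X], G.scaleRoots b = C G.leadingCoeff * X ^ d + C b * H := by
  have h : C b ∣ G.scaleRoots b - C G.leadingCoeff * X ^ d := by
    rw [Polynomial.C_dvd_iff_dvd_coeff]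
    intro i
    rw [coeff_sub, coeff_scaleRoots, coeff_C_mul, coeff_X_pow, hG]
    by_cases hi : i = d
    · subst hi
      simp [Polynomial.leadingCoeff, hG]
    · rw [if_neg hi, mul_zero, sub_zero]
      rcases Nat.lt_or_ge d i with h1 | h1
      · rw [coeff_eq_zero_of_natDegree_lt (by omega), zero_mul]
        exact dvd_zero _
      · refine Dvd.dvd.mul_left (dvd_pow_self _ (by omega)) _
  obtain ⟨H, hH⟩ := h
  exact ⟨H, by rw [← hH]; ring⟩

theorem eval_scaleRoots {G : ℤ[X]} {d : ℕ} (hG : G.natDegree = d) {q : ℤ} {g : ℚ[X]}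
    (hGg : G.map (Int.castRingHom ℚ) = C (q : ℚ) * g) {b : ℕ} {x : ℚ} {n : ℤ}
    (hn : (n : ℚ) = b * x) :
    (((G.scaleRoots (b : ℤ)).eval n : ℤ) : ℚ) = (b : ℚ) ^ d * (q * g.eval x) := by
  have h1 := scaleRoots_eval₂_mul (p := G) (Int.castRingHom ℚ) x (b : ℤ)
  have h2 : (Int.castRingHom ℚ) (b : ℤ) * x = (Int.castRingHom ℚ) n := by
    simp [hn]
  rw [h2, hG] at h1
  rw [Polynomial.eval₂_at_apply] at h1
  have h3 : eval₂ (Int.castRingHom ℚ) x G = q * g.eval x := by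
    rw [← eval_map, hGg]
    simp
  rw [h3] at h1
  simpa using h1

end Pool.Agent.TransPre
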