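import Mathlib

set_option autoImplicit false

namespace Pool.Agent.TransPre

/-- the `p`-adic valuation of an integer as a real number -/
noncomputable def vv (p : ℕ) (z : ℤ) : ℝ := (z.natAbs.factorization p : ℝ)

theorem vv_nonneg (p : ℕ) (z : ℤ) : 0 ≤ vv p z := by
  unfold vv
  positivity

theorem vv_mul {p : ℕ} {x y : ℤ} (hx : x ≠ 0) (hy : y ≠ 0) : vv p (x * y) = vv p x + vv p y := by
  unfold vv
  rw [Int.natAbs_mul, Nat.factorization_mul (Int.natAbs_ne_zero.mpr hx)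
    (Int.natAbs_ne_zero.mpr hy)]
  push_cast
  simp

theorem vv_neg {p : ℕ} (x : ℤ) : vv p (-x) = vv p x := by
  unfold vv
  rw [Int.natAbs_neg]

theorem vv_one (p : ℕ) : vv p 1 = 0 := by
  unfold vv
  simp

theorem vv_pow {p : ℕ} (x : ℤ) (k : ℕ) : vv p (x ^ k) = k * vv p x := by
  unfold vv
  rw [Int.natAbs_pow, Nat.factorization_pow]
  simp

theorem le_vv_of_dvd {p : ℕ} (hp : p.Prime) {z : ℤ} (hz : z ≠ 0) {k : ℕ} (h : (p : ℤ) ^ k ∣ z) :
    (k : ℝ) ≤ vv p z := by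
  unfold vv
  have h1 : p ^ k ∣ z.natAbs := by
    have := Int.natAbs_dvd_natAbs.mpr h
    simpa [Int.natAbs_pow] using this
  have h2 := (hp.pow_dvd_iff_le_factorization (Int.natAbs_ne_zero.mpr hz)).mp h1
  exact_mod_cast h2

theorem vv_le_of_dvd {p : ℕ} {x z : ℤ} (hz : z ≠ 0) (h : x ∣ z) : vv p x ≤ vv p z := by
  unfold vv
  have h1 : x.natAbs ∣ z.natAbs := Int.natAbs_dvd_natAbs.mpr h
  have hx : x ≠ 0 := by
    rintro rfl
    rw [zero_dvd_iff] at h
    exact hz h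
  have h2 := (Nat.factorization_le_iff_dvd (Int.natAbs_ne_zero.mpr hx)
    (Int.natAbs_ne_zero.mpr hz)).mpr h1
  exact_mod_cast h2 p

theorem sum_vv_eq (P : Finset ℕ) {b : ℕ} (hP : b.primeFactors ⊆ P) :
    ∑ p ∈ P, vv p (b : ℤ) * Real.log p = Real.log b := by
  rw [Real.log_nat_eq_sum_factorization, Finsupp.sum, Nat.support_factorization]
  symm
  refine Finset.sum_subset_zero_on_sdiff hP ?_ ?_
  · intro p hp
    rw [Finset.mem_sdiff] at hp
    have : b.factorization p = 0 := by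
      rw [← Finsupp.notMem_support_iff, Nat.support_factorization]
      exact hp.2
    unfold vv
    rw [Int.natAbs_natCast, this]
    simp
  · intro p _
    unfold vv
    rw [Int.natAbs_natCast]

theorem sum_vv_le (P : Finset ℕ) (z : ℤ) :
    ∑ p ∈ P, vv p z * Real.log p ≤ Real.log |(z : ℝ)| := by
  have h1 : ∑ p ∈ P, vv p z * Real.log p ≤ ∑ p ∈ P ∪ z.natAbs.primeFactors, vv p z * Real.log p := by
    refine Finset.sum_le_sum_of_subset_of_nonneg Finset.subset_union_left ?_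
    intro p _ _
    exact mul_nonneg (vv_nonneg _ _) (Real.log_natCast_nonneg p)
  refine h1.trans (le_of_eq ?_)
  have h2 := sum_vv_eq (P ∪ z.natAbs.primeFactors) (b := z.natAbs) Finset.subset_union_right
  have h3 : ∀ p, vv p ((z.natAbs : ℕ) : ℤ) = vv p z := by
    intro p
    unfold vv
    rw [Int.natAbs_natCast]
  simp only [h3] at h2
  rw [h2]
  congr 1
  rw [← Int.cast_abs, Int.abs_eq_natAbs]
  simp

/-- additive functions and products -/
theorem phi_prod {ι : Type} (φ : ℤ → ℝ) (hmul : ∀ x y : ℤ, x ≠ 0 → y ≠ 0 → φ (x * y) = φ x + φ y)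
    (h1 : φ 1 = 0) (s : Finset ι) (F : ι → ℤ) (hF : ∀ i ∈ s, F i ≠ 0) :
    φ (∏ i ∈ s, F i) = ∑ i ∈ s, φ (F i) := by
  classical
  induction s using Finset.induction_on with
  | empty => simp [h1]
  | insert a s ha ih =>
    rw [Finset.prod_insert ha, Finset.sum_insert ha, hmul _ _ (hF a (Finset.mem_insert_self _ _)),
      ih (fun i hi => hF i (Finset.mem_insert_of_mem hi))]
    exact Finset.prod_ne_zero_iff.mpr (fun i hi => hF i (Finset.mem_insert_of_mem hi))

/-- additive functions of the Vandermonde determinant -/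
theorem two_phi (φ : ℤ → ℝ) (hmul : ∀ x y : ℤ, x ≠ 0 → y ≠ 0 → φ (x * y) = φ x + φ y)
    (h1 : φ 1 = 0) (hneg : ∀ x, φ (-x) = φ x) (S : Finset ℚ) (n : ℚ → ℤ)
    (hn : ∀ x ∈ S, ∀ y ∈ S, x ≠ y → n x - n y ≠ 0) (e : Fin S.card ≃ S) :
    2 * φ (Matrix.vandermonde (fun i => n (e i : ℚ))).det =
      ∑ p ∈ S.offDiag, φ (n p.1 - n p.2) := by
  classical
  have hne : ∀ i j : Fin S.card, i ≠ j → n (e i : ℚ) - n (e j : ℚ) ≠ 0 := by
    intro i j hij
    refine hn _ (e i).2 _ (e j).2 ?_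
    intro h
    exact hij (e.injective (Subtype.ext h))
  rw [Matrix.det_vandermonde]
  have h2 : φ (∏ i : Fin S.card, ∏ j ∈ Finset.Ioi i, (n (e j : ℚ) - n (e i : ℚ))) =
      ∑ i : Fin S.card, ∑ j ∈ Finset.Ioi i, φ (n (e j : ℚ) - n (e i : ℚ)) := by
    rw [phi_prod φ hmul h1]
    · refine Finset.sum_congr rfl ?_
      intro i _
      rw [phi_prod φ hmul h1]
      intro j hj
      rw [Finset.mem_Ioi] at hj
      exact hne j i hj.ne'
    · intro i _
      rw [Finset.prod_ne_zero_iff]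
      intro j hj
      rw [Finset.mem_Ioi] at hj
      exact hne j i hj.ne'
  rw [h2, two_mul, ← Finset.sum_add_distrib]
  have h3 : ∀ i : Fin S.card, ∑ j ∈ Finset.Ioi i, φ (n (e j : ℚ) - n (e i : ℚ)) +
      ∑ j ∈ Finset.Ioi i, φ (n (e j : ℚ) - n (e i : ℚ)) =
      ∑ j ∈ Finset.Ioi i, (φ (n (e j : ℚ) - n (e i : ℚ)) + φ (n (e i : ℚ) - n (e j : ℚ))) := by
    intro i
    rw [← Finset.sum_add_distrib]
    refine Finset.sum_congr rfl ?_
    intro j _
    rw [← hneg (n (e i : ℚ) - n (e j : ℚ)), neg_sub]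
  simp_rw [h3]
  rw [Finset.sum_sum_Ioi_add_eq_sum_sum_off_diag (fun j i => φ (n (e j : ℚ) - n (e i : ℚ)))]
  rw [Finset.sum_sigma']
  refine Finset.sum_bij (fun (x : (_ : Fin S.card) × Fin S.card) _ => ((e x.2 : ℚ), (e x.1 : ℚ)))
    ?_ ?_ ?_ ?_
  · rintro ⟨i, j⟩ hij
    simp only [Finset.mem_sigma, Finset.mem_univ, true_and, Finset.mem_compl,
      Finset.mem_singleton] at hij
    rw [Finset.mem_offDiag]
    refine ⟨(e j).2, (e i).2, ?_⟩
    intro h
    exact hij (e.injective (Subtype.ext h))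
  · rintro ⟨i, j⟩ _ ⟨k, l⟩ _ h
    simp only [Prod.mk.injEq] at h
    have e1 : j = l := e.injective (Subtype.ext h.1)
    have e2 : i = k := e.injective (Subtype.ext h.2)
    rw [e1, e2]
  · rintro ⟨x, y⟩ hxy
    rw [Finset.mem_offDiag] at hxy
    refine ⟨⟨e.symm ⟨y, hxy.2.1⟩, e.symm ⟨x, hxy.1⟩⟩, ?_, ?_⟩
    · simp only [Finset.mem_sigma, Finset.mem_univ, true_and, Finset.mem_compl,
        Finset.mem_singleton]
      intro h
      have := e.symm.injective h
      rw [Subtype.mk.injEq] at this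
      exact hxy.2.2 this
    · simp
  · rintro ⟨i, j⟩ _
    rfl

end Pool.Agent.TransPre
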