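import Mathlib
import Pool.Agent.TransPre.Count
import Pool.Agent.TransPre.Padic
import Pool.Agent.TransPre.Val
import Pool.Agent.TransPre.Neutral

set_option autoImplicit false

namespace Pool.Agent.TransPre

open Polynomial

/-- the primes with few classes -/
def goodPrimes (d : ℕ) (A : ℤ) (b : ℕ) : Finset ℕ :=
  b.primeFactors.filter (fun p => ¬ (p ∣ (A * d).natAbs) ∧ p % d ≠ 1)

theorem main_ineq {d : ℕ} (hd : 3 ≤ d) {g : ℚ[X]} (hg : g.natDegree = d) {G : ℤ[X]} {q : ℤ}
    (hq : q ≠ 0) (hG : G.map (Int.castRingHom ℚ) = C (q : ℚ) * g) {c : ℚ} {S : Finset ℚ}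
    (hS : ∀ x ∈ S, g.eval x + c ∈ S) {b : ℕ} (hb : 0 < b) {n : ℚ → ℤ}
    (hn : ∀ x ∈ S, ((n x : ℤ) : ℚ) = b * x)
    (hmin : ∀ p : ℕ, p.Prime → p ∣ b → ∃ x ∈ S, ¬ (p : ℤ) ∣ n x)
    {S' : Finset ℚ} (hS' : S' ⊆ S) {p₀ : ℕ} (hp₀ : p₀.Prime)
    (hcl : ∀ x ∈ S', ∀ y ∈ S',
      (p₀ : ℤ) ^ ((G.leadingCoeff * d).natAbs.factorization p₀ + 1) ∣ n x - n y)
    {T : ℕ} (hT : S'.card ≤ d ^ T) :
    (d - 2 : ℝ) * ((S'.card : ℝ) ^ 2 / d - S'.card) *
      (∑ p ∈ insert p₀ (goodPrimes d G.leadingCoeff b), vv p b * Real.log p) ≤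
      2 * S'.card * T * (d - 1) * Real.log b +
      (S'.card : ℝ) ^ 2 * ((d + 1) * Real.log |(G.leadingCoeff * d : ℝ)|) +
      ∑ p ∈ S'.offDiag, Real.log |(p.1 : ℝ) - p.2| := by
  classical
  set A := G.leadingCoeff with hAdef
  have hqQ : (q : ℚ) ≠ 0 := by exact_mod_cast hq
  have hGd : G.natDegree = d := by
    have h1 : (G.map (Int.castRingHom ℚ)).natDegree = d := by
      rw [hG, natDegree_C_mul hqQ, hg]
    rwa [natDegree_map_eq_of_injective (RingHom.injective_int _)] at h1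
  have hAQ : (A : ℚ) = q * g.leadingCoeff := by
    have h1 : (G.map (Int.castRingHom ℚ)).leadingCoeff = q * g.leadingCoeff := by
      rw [hG, leadingCoeff_mul, leadingCoeff_C]
    rw [leadingCoeff_map_of_injective (RingHom.injective_int _)] at h1
    simpa using h1
  have hg0 : g.leadingCoeff ≠ 0 := by
    rw [Ne, leadingCoeff_eq_zero]
    rintro rfl
    simp at hg
    omega
  have hA0 : A ≠ 0 := by
    intro h
    rw [h] at hAQ
    simp [hqQ] at hAQ
    exact hg0 (by rw [hAQ]; simp)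
  have hd0 : (d : ℤ) ≠ 0 := by
    have : 0 < d := by omega
    exact_mod_cast this.ne'
  have hAd0 : A * d ≠ 0 := mul_ne_zero hA0 hd0
  obtain ⟨H, hH⟩ := scaleRoots_decomp G hGd (b : ℤ)
  set P := G.scaleRoots (b : ℤ) with hP
  have hbQ : (b : ℚ) ≠ 0 := by exact_mod_cast hb.ne'
  -- the basic relation
  have hrel : ∀ x ∈ S, ∀ y ∈ S, P.eval (n x) - P.eval (n y) =
      (b : ℤ) ^ (d - 1) * (q * (n (g.eval x + c) - n (g.eval y + c))) := by
    intro x hx y hy
    have h1 := eval_scaleRoots hGd hG (hn x hx)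
    have h2 := eval_scaleRoots hGd hG (hn y hy)
    rw [← @Int.cast_inj ℚ]
    push_cast
    rw [h1, h2, hn _ (hS x hx), hn _ (hS y hy)]
    have h3 : (b : ℚ) ^ d = (b : ℚ) ^ (d - 1) * b := by
      rw [← pow_succ]
      congr 1
      omega
    rw [h3]
    ring
  have hrelb : ∀ x ∈ S, ∀ y ∈ S, (b : ℤ) ∣ P.eval (n x) - P.eval (n y) := by
    intro x hx y hy
    rw [hrel x hx y hy]
    exact Dvd.dvd.mul_right (dvd_pow_self _ (by omega)) _
  -- valuations
  set ee : ℕ → ℕ := fun p => (A * d).natAbs.factorization p with hee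
  have hee1 : ∀ p : ℕ, p.Prime → ¬ (p : ℤ) ^ (ee p + 1) ∣ A * d := by
    intro p hp h
    have h1 : p ^ (ee p + 1) ∣ (A * d).natAbs := by
      have := Int.natAbs_dvd_natAbs.mpr h
      simpa [Int.natAbs_pow] using this
    have h2 := (hp.pow_dvd_iff_le_factorization (Int.natAbs_ne_zero.mpr hAd0)).mp h1
    simp only [hee] at h2
    omega
  have hee2 : ∀ p : ℕ, p.Prime → ¬ (p : ℤ) ^ (ee p + 1) ∣ A := by
    intro p hp h
    exact hee1 p hp (h.trans (Dvd.intro _ rfl))
  have hcop : ∀ p : ℕ, p.Prime → (p : ℤ) ^ (ee p + 1) ∣ (b : ℤ) → ∀ z ∈ S, ¬ (p : ℤ) ∣ n z := by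
    intro p hp hpb z hz
    have h1 : p ∣ b := by
      have h2 : (p : ℤ) ∣ (b : ℤ) := (dvd_pow_self _ (by omega)).trans hpb
      exact_mod_cast h2
    obtain ⟨y, hy, hyn⟩ := hmin p hp h1
    exact not_dvd_num hp (by omega) hH (hee2 p hp) hpb (hrelb z hz y hy) hyn
  have hclose : ∀ p : ℕ, p.Prime → (p : ℤ) ^ (ee p + 1) ∣ (b : ℤ) → ∀ x ∈ S, ∀ y ∈ S,
      (p : ℤ) ^ (ee p + 1) ∣ n x - n y →
      (p : ℤ) ^ ((d - 1) * b.factorization p - ee p) ∣ n x - n y := by
    intro p hp hpb x hx y hy hxy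
    refine close_of_class hp hH (hee1 p hp) hpb ?_ (hcop p hp hpb y hy) hxy
    rw [hrel x hx y hy]
    refine Dvd.dvd.mul_right ?_ _
    rw [mul_comm (d - 1), pow_mul]
    refine pow_dvd_pow_of_dvd ?_ _
    have := Nat.ordProj_dvd b p
    exact_mod_cast this
  -- differences
  have hnne : ∀ x ∈ S, ∀ y ∈ S, x ≠ y → n x - n y ≠ 0 := by
    intro x hx y hy hxy h
    apply hxy
    have h1 : ((n x : ℤ) : ℚ) = ((n y : ℤ) : ℚ) := by
      rw [sub_eq_zero.mp h]
    rw [hn x hx, hn y hy] at h1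
    exact mul_left_cancel₀ hbQ h1
  -- enumeration
  let e : Fin S'.card ≃ S' := S'.equivFin.symm
  set m := S'.card with hm
  set Z : ℤ := (Matrix.vandermonde (fun i => n (e i : ℚ))).det with hZ
  have hnne' : ∀ x ∈ S', ∀ y ∈ S', x ≠ y → n x - n y ≠ 0 :=
    fun x hx y hy => hnne x (hS' hx) y (hS' hy)
  have hZ0 : Z ≠ 0 := by
    rw [hZ, Matrix.det_vandermonde_ne_zero_iff]
    intro i j hij
    by_contra hne
    have : (e i : ℚ) ≠ (e j : ℚ) := fun h => hne (e.injective (Subtype.ext h))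
    exact hnne' _ (e i).2 _ (e j).2 this (sub_eq_zero.mpr hij)
  have hfd : (g + C c).natDegree = d := by
    rw [natDegree_add_C, hg]
  have hfl : (g + C c).leadingCoeff = g.leadingCoeff := by
    refine leadingCoeff_add_of_degree_lt' ?_
    refine lt_of_le_of_lt degree_C_le ?_
    rw [← natDegree_pos_iff_degree_pos]
    omega
  have hdvd := neutral (n := n) (f := g + C c) (S := S) (b := b) (d := d) (by omega) hfd
    (by
      intro x hx
      have := hS x hx
      simpa using this) hn (q := q) (A := A) (by rw [hfl, hAQ]) (fun i => (e i : ℚ))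
    (fun i => hS' (e i).2)
  set Q : ℕ := ∑ j : Fin m, (j : ℕ) with hQ
  set Sg : ℕ := ∑ j : Fin m, (Nat.digits d j).sum with hSg
  set eA : ℕ := ∑ j : Fin m, eL d (Nat.digits d j) with heA
  have hQ2 : 2 * (Q : ℝ) = (m : ℝ) ^ 2 - m := by
    have h1 : Q = ∑ j ∈ Finset.range m, j := by
      rw [hQ, Fin.sum_univ_eq_sum_range (fun j => j) m]
    have h2 := Finset.sum_range_id_mul_two m
    rw [← h1] at h2
    have h3 : ((Q * 2 : ℕ) : ℝ) = ((m * (m - 1) : ℕ) : ℝ) := by rw [h2]
    rcases Nat.eq_zero_or_pos m with h4 | h4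
    · rw [h4] at h3 ⊢
      push_cast at h3 ⊢
      linarith
    · rw [Nat.cast_mul, Nat.cast_mul, Nat.cast_sub h4] at h3
      push_cast at h3
      linarith
  have heA_le : eA ≤ Q := by
    refine Finset.sum_le_sum ?_
    intro j _
    refine (eL_le (by omega) _).trans ?_
    rw [Nat.ofDigits_digits]
  have hSg_le : Sg ≤ m * (T * (d - 1)) := by
    calc Sg ≤ ∑ j : Fin m, T * (d - 1) := by
          refine Finset.sum_le_sum ?_
          intro j _
          exact sum_digits_le (by omega) (lt_of_lt_of_le j.2 hT)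
      _ = m * (T * (d - 1)) := by simp
  have hbZ : (b : ℤ) ≠ 0 := by exact_mod_cast hb.ne'
  set z : ℤ := (b : ℤ) ^ Sg * A ^ eA * Z with hz
  have hz1 : (b : ℤ) ^ Sg * A ^ eA ≠ 0 := mul_ne_zero (pow_ne_zero _ hbZ) (pow_ne_zero _ hA0)
  have hz0 : z ≠ 0 := mul_ne_zero hz1 hZ0
  set m' : ℝ := (m : ℝ) with hm'
  have hm'0 : 0 ≤ m' := by positivity
  have hd' : (3 : ℝ) ≤ d := by exact_mod_cast hd
  have hmm : 0 ≤ m' ^ 2 - m' := by rw [← hQ2]; positivity
  have hcard : ((S'.offDiag.card : ℕ) : ℝ) = m' ^ 2 - m' := by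
    rw [Finset.offDiag_card, Nat.cast_sub (Nat.le_mul_self _)]
    push_cast
    rw [← hm, ← hm']
    ring
  -- logarithm of z
  have hlogz : 2 * Real.log |(z : ℝ)| = 2 * Sg * Real.log b + 2 * eA * Real.log |(A : ℝ)| +
      ((m' ^ 2 - m') * Real.log b + ∑ p ∈ S'.offDiag, Real.log |(p.1 : ℝ) - p.2|) := by
    have h1 := two_phi (fun x : ℤ => Real.log |(x : ℝ)|)
      (by
        intro x y hx hy
        push_cast
        rw [abs_mul, Real.log_mul]
        · exact abs_ne_zero.mpr (by exact_mod_cast hx)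
        · exact abs_ne_zero.mpr (by exact_mod_cast hy))
      (by simp) (by intro x; simp) S' n hnne' e
    have h2 : Real.log |(z : ℝ)| = Sg * Real.log b + eA * Real.log |(A : ℝ)| +
        Real.log |(Z : ℝ)| := by
      rw [hz]
      push_cast
      rw [abs_mul, abs_mul, Real.log_mul, Real.log_mul, abs_pow, abs_pow, Real.log_pow,
        Real.log_pow, Nat.abs_cast]
      · exact abs_ne_zero.mpr (pow_ne_zero _ (by exact_mod_cast hb.ne'))
      · exact abs_ne_zero.mpr (pow_ne_zero _ (by exact_mod_cast hA0))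
      · rw [← abs_mul]
        refine abs_ne_zero.mpr ?_
        exact_mod_cast hz1
      · exact abs_ne_zero.mpr (by exact_mod_cast hZ0)
    have h3 : ∑ p ∈ S'.offDiag, Real.log |((n p.1 - n p.2 : ℤ) : ℝ)| =
        (m' ^ 2 - m') * Real.log b + ∑ p ∈ S'.offDiag, Real.log |(p.1 : ℝ) - p.2| := by
      rw [← hcard, ← nsmul_eq_mul, ← Finset.sum_const, ← Finset.sum_add_distrib]
      refine Finset.sum_congr rfl ?_
      rintro ⟨x, y⟩ hxy
      rw [Finset.mem_offDiag] at hxy
      have h4 : ((n x - n y : ℤ) : ℝ) = b * ((x : ℝ) - y) := by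
        have e1 := hn x (hS' hxy.1)
        have e2 := hn y (hS' hxy.2.1)
        have e3 : ((n x - n y : ℤ) : ℚ) = b * (x - y) := by
          push_cast
          rw [e1, e2]
          ring
        have e4 : (((n x - n y : ℤ) : ℚ) : ℝ) = ((b * (x - y) : ℚ) : ℝ) := by rw [e3]
        push_cast at e4
        push_cast
        exact e4
      simp only
      rw [h4, abs_mul, Real.log_mul, Nat.abs_cast]
      · exact abs_ne_zero.mpr (by exact_mod_cast hb.ne')
      · rw [abs_ne_zero, sub_ne_zero]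
        exact_mod_cast hxy.2.2
    rw [h2, mul_add, mul_add, h1, h3]
    ring
  -- valuations of z
  set P₁ : Finset ℕ := insert p₀ b.primeFactors with hP₁
  set Gd : Finset ℕ := insert p₀ (goodPrimes d A b) with hGd'
  have hGdP : Gd ⊆ P₁ := by
    intro p hp
    rw [hGd', Finset.mem_insert] at hp
    rw [hP₁, Finset.mem_insert]
    rcases hp with hp | hp
    · exact Or.inl hp
    · right
      exact (Finset.mem_filter.mp hp).1
  set κ : ℝ := (d - 2 : ℝ) * (m' ^ 2 / d - m') with hκ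
  have hvz : ∀ p, 2 * vv p z = 2 * vv p ((b : ℤ) ^ Sg * A ^ eA) +
      ∑ t ∈ S'.offDiag, vv p (n t.1 - n t.2) := by
    intro p
    have h1 := two_phi (fun x : ℤ => vv p x) (fun x y hx hy => vv_mul hx hy) (vv_one p)
      (fun x => vv_neg x) S' n hnne' e
    rw [hz, vv_mul hz1 hZ0, mul_add]
    rw [← hZ] at h1
    rw [h1]
  have hbase : ∀ p, (m' ^ 2 - m') * vv p b ≤ 2 * vv p z := by
    intro p
    have h1 : vv p ((b : ℤ) ^ Q) ≤ vv p z := vv_le_of_dvd hz0 hdvd
    rw [vv_pow] at h1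
    rw [← hQ2]
    linarith
  have hpt : ∀ p ∈ P₁, (m' ^ 2 - m') * vv p b + (if p ∈ Gd then κ * vv p b else 0) -
      (if p = p₀ then (m' ^ 2 - m') * ((d - 1) * ee p₀) else 0) ≤ 2 * vv p z := by
    intro p hp
    have hvvb : vv p (b : ℤ) = (b.factorization p : ℝ) := by
      unfold vv
      rw [Int.natAbs_natCast]
    by_cases hpp0 : p = p₀
    · subst hpp0
      rw [if_pos rfl, if_pos (by rw [hGd']; exact Finset.mem_insert_self _ _)]
      have hκle : κ ≤ (d - 2 : ℝ) * (m' ^ 2 - m') := by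
        rw [hκ]
        refine mul_le_mul_of_nonneg_left ?_ (by linarith)
        have : m' ^ 2 / d ≤ m' ^ 2 := div_le_self (by positivity) (by linarith)
        linarith
      have hκle' : κ * vv p b ≤ (d - 2 : ℝ) * (m' ^ 2 - m') * vv p b :=
        mul_le_mul_of_nonneg_right hκle (vv_nonneg _ _)
      have hlow : (m' ^ 2 - m') * ((d - 1 : ℝ) * (vv p b - ee p)) ≤ 2 * vv p z := by
        by_cases hle : ee p + 1 ≤ b.factorization p
        · have hpb : (p : ℤ) ^ (ee p + 1) ∣ (b : ℤ) := by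
            have h1 : p ^ (ee p + 1) ∣ b := (pow_dvd_pow p hle).trans (Nat.ordProj_dvd b p)
            exact_mod_cast h1
          have h1 : ∀ t ∈ S'.offDiag, (d - 1 : ℝ) * (vv p b - ee p) ≤ vv p (n t.1 - n t.2) := by
            rintro ⟨x, y⟩ hxy
            rw [Finset.mem_offDiag] at hxy
            have h2 := hclose p hp₀ hpb x (hS' hxy.1) y (hS' hxy.2.1) (hcl x hxy.1 y hxy.2.1)
            have h3 := le_vv_of_dvd hp₀ (hnne' x hxy.1 y hxy.2.1 hxy.2.2) h2
            refine le_trans ?_ h3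
            have h4 : (d - 1) * (b.factorization p - ee p) ≤
                (d - 1) * b.factorization p - ee p := by
              rw [Nat.mul_sub]
              have : ee p ≤ (d - 1) * ee p := Nat.le_mul_of_pos_left _ (by omega)
              omega
            have h5 : (((d - 1) * (b.factorization p - ee p) : ℕ) : ℝ) ≤
                (((d - 1) * b.factorization p - ee p : ℕ) : ℝ) := by exact_mod_cast h4
            rw [Nat.cast_mul, Nat.cast_sub (by omega : 1 ≤ d),
              Nat.cast_sub (by omega : ee p ≤ b.factorization p)] at h5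
            rw [hvvb]
            simpa using h5
          rw [hvz]
          have h2 : ∑ t ∈ S'.offDiag, (d - 1 : ℝ) * (vv p b - ee p) ≤
              ∑ t ∈ S'.offDiag, vv p (n t.1 - n t.2) := Finset.sum_le_sum h1
          rw [Finset.sum_const, nsmul_eq_mul, hcard] at h2
          have h3 := vv_nonneg p ((b : ℤ) ^ Sg * A ^ eA)
          linarith
        · have h1 : vv p b - ee p ≤ 0 := by
            rw [hvvb, sub_nonpos]
            have : b.factorization p ≤ ee p := by omega
            exact_mod_cast this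
          have h2 : (m' ^ 2 - m') * ((d - 1 : ℝ) * (vv p b - ee p)) ≤ 0 := by
            refine mul_nonpos_of_nonneg_of_nonpos hmm ?_
            exact mul_nonpos_of_nonneg_of_nonpos (by linarith) h1
          have h3 := vv_nonneg p z
          linarith
      nlinarith [hκle', hlow]
    · rw [if_neg hpp0, sub_zero]
      by_cases hpG : p ∈ Gd
      · rw [if_pos hpG]
        have hpg : p ∈ goodPrimes d A b := by
          rw [hGd', Finset.mem_insert] at hpG
          exact hpG.resolve_left hpp0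
        obtain ⟨hpb, hpA, hpd⟩ := Finset.mem_filter.mp hpg
        have hpprime : p.Prime := Nat.prime_of_mem_primeFactors hpb
        have hpdb : p ∣ b := Nat.dvd_of_mem_primeFactors hpb
        have hee0 : ee p = 0 := Nat.factorization_eq_zero_of_not_dvd hpA
        have hpb' : (p : ℤ) ^ (ee p + 1) ∣ (b : ℤ) := by
          rw [hee0, zero_add, pow_one]
          exact_mod_cast hpdb
        have hpA' : ¬ (p : ℤ) ∣ A := by
          have := hee2 p hpprime
          rwa [hee0, zero_add, pow_one] at this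
        have hcard2 := card_class_le hpprime (by omega : 1 ≤ d) hH hpA' (by exact_mod_cast hpdb) S'
          n (fun x hx y hy => hrelb x (hS' hx) y (hS' hy))
          (fun x hx => hcop p hpprime hpb' x (hS' hx))
        have hsame := same_pairs S' (fun x => n x % (p : ℤ)) hcard2
        have hgcd := two_gcd_le (by omega : 2 ≤ d) hpprime hpd
        set N : ℕ := (S'.offDiag.filter (fun t => n t.1 % (p : ℤ) = n t.2 % (p : ℤ))).card with hN
        have h1 : 2 * m ^ 2 ≤ d * (N + m) := by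
          calc 2 * m ^ 2 ≤ 2 * (Nat.gcd d (p - 1) * (N + m)) := Nat.mul_le_mul_left _ hsame
            _ = (2 * Nat.gcd d (p - 1)) * (N + m) := by ring
            _ ≤ d * (N + m) := Nat.mul_le_mul_right _ hgcd
        have h2 : 2 * m' ^ 2 ≤ d * ((N : ℝ) + m') := by
          rw [hm']
          exact_mod_cast h1
        have h3 : 2 * m' ^ 2 / d - m' ≤ N := by
          rw [sub_le_iff_le_add, div_le_iff₀ (by linarith)]
          linarith
        have h4 : ∑ t ∈ S'.offDiag, (if n t.1 % (p : ℤ) = n t.2 % (p : ℤ) then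
            (d - 1 : ℝ) * vv p b else 0) ≤ ∑ t ∈ S'.offDiag, vv p (n t.1 - n t.2) := by
          refine Finset.sum_le_sum ?_
          rintro ⟨x, y⟩ hxy
          rw [Finset.mem_offDiag] at hxy
          simp only
          split_ifs with hmod
          · have h5 : (p : ℤ) ^ (ee p + 1) ∣ n x - n y := by
              rw [hee0, zero_add, pow_one]
              exact Int.ModEq.dvd (hmod.symm)
            have h6 := hclose p hpprime hpb' x (hS' hxy.1) y (hS' hxy.2.1) h5
            have h7 := le_vv_of_dvd hpprime (hnne' x hxy.1 y hxy.2.1 hxy.2.2) h6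
            rw [hee0, Nat.sub_zero, Nat.cast_mul, Nat.cast_sub (by omega : 1 ≤ d)] at h7
            rw [hvvb]
            simpa using h7
          · exact vv_nonneg _ _
        rw [← Finset.sum_filter, Finset.sum_const, nsmul_eq_mul, ← hN] at h4
        have h5 : (2 * m' ^ 2 / d - m') * ((d - 1 : ℝ) * vv p b) ≤ N * ((d - 1 : ℝ) * vv p b) :=
          mul_le_mul_of_nonneg_right h3 (mul_nonneg (by linarith) (vv_nonneg _ _))
        have h6 : (m' ^ 2 - m') * vv p b + κ * vv p b =
            (2 * m' ^ 2 / d - m') * ((d - 1 : ℝ) * vv p b) := by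
          rw [hκ]
          have hdne : (d : ℝ) ≠ 0 := by linarith
          field_simp
          ring
        rw [h6, hvz]
        have h7 := vv_nonneg p ((b : ℤ) ^ Sg * A ^ eA)
        linarith
      · rw [if_neg hpG, add_zero]
        exact hbase p
  -- sum up
  have hsum : ∑ p ∈ P₁, ((m' ^ 2 - m') * vv p b + (if p ∈ Gd then κ * vv p b else 0) -
      (if p = p₀ then (m' ^ 2 - m') * ((d - 1) * ee p₀) else 0)) * Real.log p ≤
      ∑ p ∈ P₁, 2 * vv p z * Real.log p := by
    refine Finset.sum_le_sum ?_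
    intro p hp
    exact mul_le_mul_of_nonneg_right (hpt p hp) (Real.log_natCast_nonneg p)
  have hsumz : ∑ p ∈ P₁, 2 * vv p z * Real.log p ≤ 2 * Real.log |(z : ℝ)| := by
    have h1 := sum_vv_le P₁ z
    calc ∑ p ∈ P₁, 2 * vv p z * Real.log p = 2 * ∑ p ∈ P₁, vv p z * Real.log p := by
          rw [Finset.mul_sum]
          refine Finset.sum_congr rfl ?_
          intro p _
          ring
      _ ≤ _ := by linarith
  have hsum1 : ∑ p ∈ P₁, ((m' ^ 2 - m') * vv p b + (if p ∈ Gd then κ * vv p b else 0) -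
      (if p = p₀ then (m' ^ 2 - m') * ((d - 1) * ee p₀) else 0)) * Real.log p =
      (m' ^ 2 - m') * Real.log b + κ * (∑ p ∈ Gd, vv p b * Real.log p) -
      (m' ^ 2 - m') * ((d - 1) * ee p₀) * Real.log p₀ := by
    have e1 : ∀ p, ((m' ^ 2 - m') * vv p b + (if p ∈ Gd then κ * vv p b else 0) -
      (if p = p₀ then (m' ^ 2 - m') * ((d - 1) * ee p₀) else 0)) * Real.log p =
      (m' ^ 2 - m') * (vv p b * Real.log p) +
        (if p ∈ Gd then κ * (vv p b * Real.log p) else 0) -
      (if p = p₀ then (m' ^ 2 - m') * ((d - 1) * ee p₀) * Real.log p₀ else 0) := by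
      intro p
      split_ifs with h1 h2 h2
      · subst h2; ring
      · ring
      · subst h2; ring
      · ring
    simp_rw [e1]
    rw [Finset.sum_sub_distrib, Finset.sum_add_distrib, ← Finset.mul_sum,
      sum_vv_eq P₁ (by rw [hP₁]; exact Finset.subset_insert _ _), ← Finset.sum_filter,
      Finset.filter_mem_eq_inter, Finset.inter_eq_right.mpr hGdP, ← Finset.mul_sum,
      Finset.sum_ite_eq' P₁ p₀]
    rw [if_pos (by rw [hP₁]; exact Finset.mem_insert_self _ _)]
  have hAd1 : (1 : ℝ) ≤ |(A * d : ℝ)| := by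
    have h1 : (1 : ℤ) ≤ |A * d| := Int.one_le_abs hAd0
    exact_mod_cast h1
  have hlAd : 0 ≤ Real.log |(A * d : ℝ)| := Real.log_nonneg hAd1
  have hee0log : (ee p₀ : ℝ) * Real.log p₀ ≤ Real.log |(A * d : ℝ)| := by
    have h1 := sum_vv_le {p₀} (A * d)
    rw [Finset.sum_singleton] at h1
    have h2 : vv p₀ (A * d) = (ee p₀ : ℝ) := rfl
    rw [h2] at h1
    push_cast at h1
    exact h1
  have hlA : Real.log |(A : ℝ)| ≤ Real.log |(A * d : ℝ)| := by
    refine Real.log_le_log (abs_pos.mpr (by exact_mod_cast hA0)) ?_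
    rw [abs_mul]
    have h1 : (1 : ℝ) ≤ |(d : ℝ)| := by
      rw [Nat.abs_cast]
      linarith
    calc |(A : ℝ)| = |(A : ℝ)| * 1 := (mul_one _).symm
      _ ≤ |(A : ℝ)| * |(d : ℝ)| := mul_le_mul_of_nonneg_left h1 (abs_nonneg _)
  have hlb : 0 ≤ Real.log b := Real.log_natCast_nonneg b
  have hfin1 : 2 * (eA : ℝ) * Real.log |(A : ℝ)| ≤ (m' ^ 2) * Real.log |(A * d : ℝ)| := by
    have h1 : 2 * (eA : ℝ) ≤ m' ^ 2 := by
      have : (eA : ℝ) ≤ Q := by exact_mod_cast heA_le
      nlinarith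
    calc 2 * (eA : ℝ) * Real.log |(A : ℝ)| ≤ 2 * (eA : ℝ) * Real.log |(A * d : ℝ)| :=
          mul_le_mul_of_nonneg_left hlA (by positivity)
      _ ≤ (m' ^ 2) * Real.log |(A * d : ℝ)| := mul_le_mul_of_nonneg_right h1 hlAd
  have hfin2 : (m' ^ 2 - m') * ((d - 1) * ee p₀) * Real.log p₀ ≤
      m' ^ 2 * (d * Real.log |(A * d : ℝ)|) := by
    have h1 : (m' ^ 2 - m') * ((d - 1) * ee p₀) * Real.log p₀ =
        (m' ^ 2 - m') * ((d - 1) * (ee p₀ * Real.log p₀)) := by ring
    rw [h1]
    have hl0 : 0 ≤ (ee p₀ : ℝ) * Real.log p₀ :=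
      mul_nonneg (Nat.cast_nonneg _) (Real.log_natCast_nonneg p₀)
    refine mul_le_mul (by linarith) ?_ ?_ (sq_nonneg _)
    · exact mul_le_mul (by linarith) hee0log hl0 (by linarith)
    · exact mul_nonneg (by linarith) hl0
  have hfin3 : 2 * (Sg : ℝ) * Real.log b ≤ 2 * m' * T * (d - 1) * Real.log b := by
    refine mul_le_mul_of_nonneg_right ?_ hlb
    have h1 : (Sg : ℝ) ≤ ((m * (T * (d - 1)) : ℕ) : ℝ) := by exact_mod_cast hSg_le
    rw [Nat.cast_mul, Nat.cast_mul, Nat.cast_sub (by omega : 1 ≤ d)] at h1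
    push_cast at h1
    rw [hm']
    linarith
  have hfinal := (hsum1 ▸ hsum).trans hsumz
  rw [hlogz] at hfinal
  nlinarith [hfinal, hfin1, hfin2, hfin3]

end Pool.Agent.TransPre
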