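import Mathlib
import Pool.Agent.TransPre.Energy

set_option autoImplicit false

namespace Pool.Agent.TransPre

open Polynomial

/-- part of the denominator composed of primes `≡ 1 mod d` -/
def denOne (d : ℕ) (c : ℚ) : ℕ :=
  ∏ p ∈ c.den.primeFactors.filter (fun p => p % d = 1), p ^ c.den.factorization p

/-- complementary part of the denominator -/
def denRest (d : ℕ) (c : ℚ) : ℕ :=
  ∏ p ∈ c.den.primeFactors.filter (fun p => p % d ≠ 1), p ^ c.den.factorization p

theorem log_prod_pow (s : Finset ℕ) (hs : ∀ p ∈ s, p.Prime) (v : ℕ → ℕ) :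
    Real.log ((∏ p ∈ s, p ^ v p : ℕ) : ℝ) = ∑ p ∈ s, (v p : ℝ) * Real.log p := by
  push_cast
  rw [Real.log_prod]
  · refine Finset.sum_congr rfl ?_
    intro p _
    rw [Real.log_pow]
  · intro p hp
    have := (hs p hp).pos
    positivity

theorem weight_bound {d : ℕ} (hd : 3 ≤ d) {g : ℚ[X]} (hg : g.natDegree = d) {G : ℤ[X]} {q : ℤ}
    (hq : q ≠ 0) (hG : G.map (Int.castRingHom ℚ) = C (q : ℚ) * g) {c : ℚ} {S : Finset ℚ}
    (hS : ∀ x ∈ S, g.eval x + c ∈ S) (hne : S.Nonempty) {b : ℕ} (hb : 0 < b) {n : ℚ → ℤ}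
    (hn : ∀ x ∈ S, ((n x : ℤ) : ℚ) = b * x)
    (hmin : ∀ p : ℕ, p.Prime → p ∣ b → ∃ x ∈ S, ¬ (p : ℤ) ∣ n x)
    {p₀ : ℕ} (hmax : ∀ p : ℕ, p.Prime → vv p b * Real.log p ≤ vv p₀ b * Real.log p₀)
    {lR K θ : ℝ} (hlR : 0 ≤ lR) (hK : 0 ≤ K) (hKc : Real.log (max 1 |(c : ℝ)|) ≤ K + d * lR)
    (hθ : 0 < θ)
    (hc : ∃ p : ℕ, p.Prime ∧ (denOne d c : ℝ) ^ θ ≤
      (p : ℝ) ^ c.den.factorization p * denRest d c * max 1 |(c : ℝ)|) :
    Real.log b + lR ≤ (2 * Real.log |(q : ℝ)| + K) / θ +
      ((2 + ((G.leadingCoeff * d).natAbs.primeFactors.card : ℝ)) / θ +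
        (1 + ((G.leadingCoeff * d).natAbs.primeFactors.card : ℝ))) *
      ((∑ p ∈ insert p₀ (goodPrimes d G.leadingCoeff b), vv p b * Real.log p) + lR) := by
  classical
  set A := G.leadingCoeff with hAdef
  have hqQ : (q : ℚ) ≠ 0 := by exact_mod_cast hq
  have hGd : G.natDegree = d := by
    have h1 : (G.map (Int.castRingHom ℚ)).natDegree = d := by
      rw [hG, natDegree_C_mul hqQ, hg]
    rwa [natDegree_map_eq_of_injective (RingHom.injective_int _)] at h1
  have hA0 : A ≠ 0 := by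
    rw [hAdef, Ne, leadingCoeff_eq_zero]
    rintro rfl
    simp at hGd
    omega
  have hd0 : (d : ℤ) ≠ 0 := by
    have : 0 < d := by omega
    exact_mod_cast this.ne'
  have hAd0 : A * d ≠ 0 := mul_ne_zero hA0 hd0
  obtain ⟨H, hH⟩ := scaleRoots_decomp G hGd (b : ℤ)
  set P := G.scaleRoots (b : ℤ) with hP
  have hbQ : (b : ℚ) ≠ 0 := by exact_mod_cast hb.ne'
  have hbZ : (b : ℤ) ≠ 0 := by exact_mod_cast hb.ne'
  -- the integer `C₀ = q b^d c`
  have hC0 : ∀ x ∈ S, (((q * (b : ℤ) ^ (d - 1) * n (g.eval x + c) - P.eval (n x) : ℤ)) : ℚ) =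
      q * b ^ d * c := by
    intro x hx
    have h1 := eval_scaleRoots hGd hG (hn x hx)
    push_cast
    rw [h1, hn _ (hS x hx)]
    have h3 : (b : ℚ) ^ d = (b : ℚ) ^ (d - 1) * b := by
      rw [← pow_succ]
      congr 1
      omega
    rw [h3]
    ring
  obtain ⟨x0, hx0⟩ := hne
  set C0 : ℤ := q * (b : ℤ) ^ (d - 1) * n (g.eval x0 + c) - P.eval (n x0) with hC0def
  have hC0Q : (C0 : ℚ) = q * b ^ d * c := hC0 x0 hx0
  have hnd : c.num * (q * (b : ℤ) ^ d) = C0 * c.den := by
    have h1 : (c.den : ℚ) ≠ 0 := by exact_mod_cast c.den_nz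
    have h2 : c * c.den = c.num := Rat.mul_den_eq_num c
    rw [← @Int.cast_inj ℚ]
    push_cast
    rw [hC0Q, ← h2]
    ring
  have hden : (c.den : ℤ) ∣ q * (b : ℤ) ^ d := by
    have h1 : (c.den : ℤ) ∣ c.num * (q * (b : ℤ) ^ d) := by
      rw [hnd]
      exact Dvd.intro_left _ rfl
    have h2 : IsCoprime (c.den : ℤ) c.num := by
      rw [Int.isCoprime_iff_gcd_eq_one]
      have := c.reduced
      rw [Int.gcd_comm]
      exact this
    exact h2.dvd_of_dvd_mul_left h1
  have hqb0 : q * (b : ℤ) ^ d ≠ 0 := mul_ne_zero hq (pow_ne_zero _ hbZ)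
  have hvden : ∀ p, (c.den.factorization p : ℝ) ≤ vv p q + d * vv p b := by
    intro p
    have h1 := vv_le_of_dvd (p := p) hqb0 hden
    rw [vv_mul hq (pow_ne_zero _ hbZ), vv_pow] at h1
    have h2 : vv p (c.den : ℤ) = (c.den.factorization p : ℝ) := by
      unfold vv
      rw [Int.natAbs_natCast]
    rw [h2] at h1
    exact h1
  -- exact denominators at primes not dividing `A d`
  have hX1 : ∀ p : ℕ, p.Prime → p ∣ b → ¬ p ∣ (A * d).natAbs →
      (d : ℝ) * vv p b ≤ c.den.factorization p := by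
    intro p hp hpb hpA
    have hpA' : ¬ (p : ℤ) ∣ A := by
      intro h
      apply hpA
      have := Int.natAbs_dvd_natAbs.mpr (h.trans (Dvd.intro (d : ℤ) rfl : A ∣ A * d))
      simpa using this
    obtain ⟨y, hy, hyn⟩ := hmin p hp hpb
    have hpp : Prime (p : ℤ) := Nat.prime_iff_prime_int.mp hp
    have hpbZ : (p : ℤ) ∣ (b : ℤ) := by exact_mod_cast hpb
    have hC0p : ¬ (p : ℤ) ∣ C0 := by
      intro h
      have h1 : C0 = q * (b : ℤ) ^ (d - 1) * n (g.eval y + c) - P.eval (n y) := by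
        rw [← @Int.cast_inj ℚ, hC0Q, ← hC0 y hy]
      rw [h1] at h
      have h2 : (p : ℤ) ∣ q * (b : ℤ) ^ (d - 1) * n (g.eval y + c) := by
        refine Dvd.dvd.mul_right (Dvd.dvd.mul_left ?_ _) _
        exact hpbZ.trans (dvd_pow_self _ (by omega))
      have h3 : (p : ℤ) ∣ P.eval (n y) := by
        have := dvd_sub h2 h
        simpa using this
      rw [hH] at h3
      simp only [eval_add, eval_mul, eval_C, eval_pow, eval_X] at h3
      have h4 : (p : ℤ) ∣ A * n y ^ d := by
        have h5 : (p : ℤ) ∣ (b : ℤ) * H.eval (n y) := hpbZ.trans (Dvd.intro _ rfl)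
        exact (dvd_add_left h5).mp h3
      rcases hpp.dvd_or_dvd h4 with h5 | h5
      · exact hpA' h5
      · exact hyn (hpp.dvd_of_dvd_pow h5)
    have h1 : (p : ℤ) ^ (d * b.factorization p) ∣ C0 * c.den := by
      rw [← hnd]
      refine Dvd.dvd.mul_left (Dvd.dvd.mul_left ?_ _) _
      rw [mul_comm d, pow_mul]
      refine pow_dvd_pow_of_dvd ?_ _
      have := Nat.ordProj_dvd b p
      exact_mod_cast this
    have h2 : (p : ℤ) ^ (d * b.factorization p) ∣ (c.den : ℤ) :=
      hpp.pow_dvd_of_dvd_mul_left _ hC0p h1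
    have hdenZ : (c.den : ℤ) ≠ 0 := by exact_mod_cast c.den_nz
    have h3 := le_vv_of_dvd hp hdenZ h2
    have h4 : vv p (c.den : ℤ) = (c.den.factorization p : ℝ) := by
      unfold vv
      rw [Int.natAbs_natCast]
    rw [h4] at h3
    push_cast at h3
    have h5 : vv p (b : ℤ) = (b.factorization p : ℝ) := by
      unfold vv
      rw [Int.natAbs_natCast]
    rw [h5]
    exact h3
  -- sums
  set φ : ℕ → ℝ := fun p => vv p b * Real.log p with hφ
  have hφ0 : ∀ p, 0 ≤ φ p := fun p => mul_nonneg (vv_nonneg _ _) (Real.log_natCast_nonneg p)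
  set k3 : ℝ := ((A * d).natAbs.primeFactors.card : ℝ) with hk3
  set μ : ℝ := φ p₀ with hμ
  have hμ0 : 0 ≤ μ := hφ0 p₀
  have hmax' : ∀ p : ℕ, p.Prime → φ p ≤ μ := hmax
  set W : ℝ := ∑ p ∈ insert p₀ (goodPrimes d A b), φ p with hW
  have hμW : μ ≤ W := by
    rw [hW]
    exact Finset.single_le_sum (f := φ) (fun i _ => hφ0 i) (Finset.mem_insert_self _ _)
  set X1 := b.primeFactors.filter (fun p => ¬ (p ∣ (A * d).natAbs) ∧ p % d = 1) with hX1def
  set X3 := b.primeFactors.filter (fun p => p ∣ (A * d).natAbs) with hX3def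
  have hlogb : Real.log b ≤ ∑ p ∈ X1, φ p + W + ∑ p ∈ X3, φ p := by
    rw [← sum_vv_eq b.primeFactors (subset_refl _)]
    have h1 : b.primeFactors ⊆ (X1 ∪ insert p₀ (goodPrimes d A b)) ∪ X3 := by
      intro p hp
      by_cases h2 : p ∣ (A * d).natAbs
      · exact Finset.mem_union_right _ (Finset.mem_filter.mpr ⟨hp, h2⟩)
      · refine Finset.mem_union_left _ ?_
        by_cases h3 : p % d = 1
        · exact Finset.mem_union_left _ (Finset.mem_filter.mpr ⟨hp, h2, h3⟩)
        · exact Finset.mem_union_right _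
            (Finset.mem_insert_of_mem (Finset.mem_filter.mpr ⟨hp, h2, h3⟩))
    calc ∑ p ∈ b.primeFactors, vv p b * Real.log p
        ≤ ∑ p ∈ (X1 ∪ insert p₀ (goodPrimes d A b)) ∪ X3, φ p :=
          Finset.sum_le_sum_of_subset_of_nonneg h1 (fun i _ _ => hφ0 i)
      _ ≤ ∑ p ∈ (X1 ∪ insert p₀ (goodPrimes d A b)), φ p + ∑ p ∈ X3, φ p := by
          rw [← Finset.sum_union_inter]
          have : 0 ≤ ∑ p ∈ (X1 ∪ insert p₀ (goodPrimes d A b)) ∩ X3, φ p :=
            Finset.sum_nonneg (fun i _ => hφ0 i)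
          linarith
      _ ≤ ∑ p ∈ X1, φ p + W + ∑ p ∈ X3, φ p := by
          have h4 : ∑ p ∈ (X1 ∪ insert p₀ (goodPrimes d A b)), φ p ≤ ∑ p ∈ X1, φ p + W := by
            rw [hW, ← Finset.sum_union_inter]
            have : 0 ≤ ∑ p ∈ X1 ∩ insert p₀ (goodPrimes d A b), φ p :=
              Finset.sum_nonneg (fun i _ => hφ0 i)
            linarith
          linarith
  have hX3le : ∑ p ∈ X3, φ p ≤ k3 * μ := by
    have h1 : ∑ p ∈ X3, φ p ≤ ∑ p ∈ X3, μ := by
      refine Finset.sum_le_sum ?_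
      intro p hp
      exact hmax' p (Nat.prime_of_mem_primeFactors (Finset.mem_filter.mp hp).1)
    rw [Finset.sum_const, nsmul_eq_mul] at h1
    refine h1.trans (mul_le_mul_of_nonneg_right ?_ hμ0)
    have h2 : X3 ⊆ (A * d).natAbs.primeFactors := by
      intro p hp
      obtain ⟨hp1, hp2⟩ := Finset.mem_filter.mp hp
      rw [Nat.mem_primeFactors]
      exact ⟨Nat.prime_of_mem_primeFactors hp1, hp2, Int.natAbs_ne_zero.mpr hAd0⟩
    rw [hk3]
    exact_mod_cast Finset.card_le_card h2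
  -- the hypothesis on `c`
  obtain ⟨p₁, hp₁, hc1⟩ := hc
  have hprD1 : ∀ p ∈ c.den.primeFactors.filter (fun p => p % d = 1), p.Prime :=
    fun p hp => Nat.prime_of_mem_primeFactors (Finset.mem_filter.mp hp).1
  have hprD2 : ∀ p ∈ c.den.primeFactors.filter (fun p => p % d ≠ 1), p.Prime :=
    fun p hp => Nat.prime_of_mem_primeFactors (Finset.mem_filter.mp hp).1
  have hD1pos : (0 : ℝ) < denOne d c := by
    have : 0 < denOne d c := Finset.prod_pos (fun p hp => pow_pos (hprD1 p hp).pos _)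
    exact_mod_cast this
  have hD2pos : (0 : ℝ) < denRest d c := by
    have : 0 < denRest d c := Finset.prod_pos (fun p hp => pow_pos (hprD2 p hp).pos _)
    exact_mod_cast this
  have hp₁pos : (0 : ℝ) < p₁ := by exact_mod_cast hp₁.pos
  have hlogD1 : Real.log (denOne d c) =
      ∑ p ∈ c.den.primeFactors.filter (fun p => p % d = 1),
        (c.den.factorization p : ℝ) * Real.log p := log_prod_pow _ hprD1 _
  have hlogD2 : Real.log (denRest d c) =
      ∑ p ∈ c.den.primeFactors.filter (fun p => p % d ≠ 1),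
        (c.den.factorization p : ℝ) * Real.log p := log_prod_pow _ hprD2 _
  have hlogc : θ * Real.log (denOne d c) ≤ c.den.factorization p₁ * Real.log p₁ +
      Real.log (denRest d c) + Real.log (max 1 |(c : ℝ)|) := by
    have h1 := Real.log_le_log (Real.rpow_pos_of_pos hD1pos θ) hc1
    rw [Real.log_rpow hD1pos, Real.log_mul (by positivity) (by positivity),
      Real.log_mul (by positivity) (by positivity), Real.log_pow] at h1
    exact h1
  have hX1le : d * ∑ p ∈ X1, φ p ≤ Real.log (denOne d c) := by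
    rw [hlogD1, Finset.mul_sum]
    have h1 : ∀ p ∈ X1, (d : ℝ) * φ p ≤ (c.den.factorization p : ℝ) * Real.log p := by
      intro p hp
      obtain ⟨hp1, hp2, _⟩ := Finset.mem_filter.mp hp
      have h2 := hX1 p (Nat.prime_of_mem_primeFactors hp1) (Nat.dvd_of_mem_primeFactors hp1) hp2
      calc (d : ℝ) * φ p = (d * vv p b) * Real.log p := by rw [hφ]; ring
        _ ≤ _ := mul_le_mul_of_nonneg_right h2 (Real.log_natCast_nonneg p)
    refine (Finset.sum_le_sum h1).trans ?_
    refine Finset.sum_le_sum_of_subset_of_nonneg ?_ ?_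
    · intro p hp
      obtain ⟨hp1, hp2, hp3⟩ := Finset.mem_filter.mp hp
      have hpr := Nat.prime_of_mem_primeFactors hp1
      have hpb := Nat.dvd_of_mem_primeFactors hp1
      have h2 := hX1 p hpr hpb hp2
      have h3 : (0 : ℝ) < d * vv p b := by
        have h4 : 0 < b.factorization p := hpr.factorization_pos_of_dvd hb.ne' hpb
        have h5 : vv p (b : ℤ) = (b.factorization p : ℝ) := by
          unfold vv
          rw [Int.natAbs_natCast]
        rw [h5]
        have h6 : (0 : ℝ) < d := by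
          have : 0 < d := by omega
          exact_mod_cast this
        have h7 : (0 : ℝ) < b.factorization p := by exact_mod_cast h4
        exact mul_pos h6 h7
      have h4 : 0 < c.den.factorization p := by
        have : (0 : ℝ) < c.den.factorization p := lt_of_lt_of_le h3 h2
        exact_mod_cast this
      refine Finset.mem_filter.mpr ⟨?_, hp3⟩
      rw [← Nat.support_factorization, Finsupp.mem_support_iff]
      omega
    · intro p _ _
      exact mul_nonneg (Nat.cast_nonneg _) (Real.log_natCast_nonneg p)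
  have hlq : 0 ≤ Real.log |(q : ℝ)| := by
    refine Real.log_nonneg ?_
    have h1 : (1 : ℤ) ≤ |q| := Int.one_le_abs hq
    exact_mod_cast h1
  have hd' : (3 : ℝ) ≤ d := by exact_mod_cast hd
  have hD2le : Real.log (denRest d c) ≤ Real.log |(q : ℝ)| + d * (W + k3 * μ) := by
    rw [hlogD2]
    have h1 : ∀ p ∈ c.den.primeFactors.filter (fun p => p % d ≠ 1),
        (c.den.factorization p : ℝ) * Real.log p ≤ vv p q * Real.log p + d * φ p := by
      intro p _
      calc (c.den.factorization p : ℝ) * Real.log p ≤ (vv p q + d * vv p b) * Real.log p :=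
            mul_le_mul_of_nonneg_right (hvden p) (Real.log_natCast_nonneg p)
        _ = vv p q * Real.log p + d * φ p := by rw [hφ]; ring
    refine (Finset.sum_le_sum h1).trans ?_
    rw [Finset.sum_add_distrib, ← Finset.mul_sum]
    have h2 := sum_vv_le (c.den.primeFactors.filter (fun p => p % d ≠ 1)) q
    have h3 : ∑ p ∈ c.den.primeFactors.filter (fun p => p % d ≠ 1), φ p ≤ W + k3 * μ := by
      have h4 : ∑ p ∈ c.den.primeFactors.filter (fun p => p % d ≠ 1), φ p =
          ∑ p ∈ (c.den.primeFactors.filter (fun p => p % d ≠ 1)).filter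
            (fun p => p ∈ b.primeFactors), φ p := by
        refine (Finset.sum_filter_of_ne ?_).symm
        intro p _ hp
        by_contra hcon
        apply hp
        have h5 : b.factorization p = 0 := by
          rw [← Finsupp.notMem_support_iff, Nat.support_factorization]
          exact hcon
        have h6 : vv p (b : ℤ) = 0 := by
          unfold vv
          rw [Int.natAbs_natCast, h5]
          simp
        simp only [hφ]
        rw [h6, zero_mul]
      rw [h4]
      have h6 : (c.den.primeFactors.filter (fun p => p % d ≠ 1)).filter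
            (fun p => p ∈ b.primeFactors) ⊆ insert p₀ (goodPrimes d A b) ∪ X3 := by
        intro p hp
        obtain ⟨hp1, hp2⟩ := Finset.mem_filter.mp hp
        obtain ⟨_, hp3⟩ := Finset.mem_filter.mp hp1
        by_cases h7 : p ∣ (A * d).natAbs
        · exact Finset.mem_union_right _ (Finset.mem_filter.mpr ⟨hp2, h7⟩)
        · exact Finset.mem_union_left _
            (Finset.mem_insert_of_mem (Finset.mem_filter.mpr ⟨hp2, h7, hp3⟩))
      refine (Finset.sum_le_sum_of_subset_of_nonneg h6 (fun i _ _ => hφ0 i)).trans ?_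
      have h8 : ∑ p ∈ insert p₀ (goodPrimes d A b) ∪ X3, φ p ≤ W + ∑ p ∈ X3, φ p := by
        rw [hW, ← Finset.sum_union_inter]
        have : 0 ≤ ∑ p ∈ insert p₀ (goodPrimes d A b) ∩ X3, φ p :=
          Finset.sum_nonneg (fun i _ => hφ0 i)
        linarith
      linarith
    have h9 : (d : ℝ) * ∑ p ∈ c.den.primeFactors.filter (fun p => p % d ≠ 1), φ p ≤
        d * (W + k3 * μ) := mul_le_mul_of_nonneg_left h3 (by linarith)
    linarith
  have hp1le : (c.den.factorization p₁ : ℝ) * Real.log p₁ ≤ Real.log |(q : ℝ)| + d * μ := by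
    have h1 : (c.den.factorization p₁ : ℝ) * Real.log p₁ ≤ (vv p₁ q + d * vv p₁ b) * Real.log p₁ :=
      mul_le_mul_of_nonneg_right (hvden p₁) (Real.log_natCast_nonneg p₁)
    have h2 := sum_vv_le {p₁} q
    rw [Finset.sum_singleton] at h2
    have h3 : (d : ℝ) * φ p₁ ≤ d * μ := mul_le_mul_of_nonneg_left (hmax' p₁ hp₁) (by linarith)
    have h4 : (vv p₁ q + d * vv p₁ b) * Real.log p₁ = vv p₁ q * Real.log p₁ + d * φ p₁ := by
      rw [hφ]; ring
    linarith
  -- final
  have hk30 : 0 ≤ k3 := by rw [hk3]; positivity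
  have hS1 : 0 ≤ ∑ p ∈ X1, φ p := Finset.sum_nonneg (fun i _ => hφ0 i)
  have hW0 : 0 ≤ W := hμ0.trans hμW
  have hkey : θ * (d * ∑ p ∈ X1, φ p) ≤ 2 * Real.log |(q : ℝ)| + K + d * ((2 + k3) * (W + lR)) := by
    have h1 : θ * (d * ∑ p ∈ X1, φ p) ≤ θ * Real.log (denOne d c) :=
      mul_le_mul_of_nonneg_left hX1le hθ.le
    have h2 : d * μ + d * (W + k3 * μ) + d * lR ≤ d * ((2 + k3) * (W + lR)) := by
      have h3 : μ + (W + k3 * μ) + lR ≤ (2 + k3) * (W + lR) := by
        have h4 : k3 * μ ≤ k3 * W := mul_le_mul_of_nonneg_left hμW hk30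
        have h5 : 0 ≤ k3 * lR := mul_nonneg hk30 hlR
        nlinarith
      calc d * μ + d * (W + k3 * μ) + d * lR = d * (μ + (W + k3 * μ) + lR) := by ring
        _ ≤ _ := mul_le_mul_of_nonneg_left h3 (by linarith)
    linarith
  have hkey2 : ∑ p ∈ X1, φ p ≤ (2 * Real.log |(q : ℝ)| + K) / θ + (2 + k3) / θ * (W + lR) := by
    have h1 : (θ * d) * ∑ p ∈ X1, φ p ≤ (θ * d) * ((2 * Real.log |(q : ℝ)| + K) / θ +
        (2 + k3) / θ * (W + lR)) := by
      have h2 : (θ * d) * ((2 * Real.log |(q : ℝ)| + K) / θ + (2 + k3) / θ * (W + lR)) =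
          d * (2 * Real.log |(q : ℝ)| + K) + d * ((2 + k3) * (W + lR)) := by
        field_simp
      rw [h2]
      have h3 : (2 * Real.log |(q : ℝ)| + K) ≤ d * (2 * Real.log |(q : ℝ)| + K) := by
        have : 0 ≤ 2 * Real.log |(q : ℝ)| + K := by linarith
        nlinarith
      calc (θ * d) * ∑ p ∈ X1, φ p = θ * (d * ∑ p ∈ X1, φ p) := by ring
        _ ≤ _ := by linarith
    exact le_of_mul_le_mul_left h1 (by positivity)
  have h10 : k3 * μ ≤ k3 * (W + lR) := mul_le_mul_of_nonneg_left (by linarith) hk30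
  calc Real.log b + lR ≤ ∑ p ∈ X1, φ p + W + ∑ p ∈ X3, φ p + lR := by linarith
    _ ≤ ((2 * Real.log |(q : ℝ)| + K) / θ + (2 + k3) / θ * (W + lR)) + W + k3 * μ + lR := by
        linarith
    _ ≤ _ := by
        have e : ((2 + k3) / θ + (1 + k3)) * (W + lR) =
          (2 + k3) / θ * (W + lR) + (W + lR) + k3 * (W + lR) := by ring
        rw [e]
        linarith

end Pool.Agent.TransPre
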