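import Mathlib
import Pool.Agent.TransPre.Weight
import Pool.Agent.TransPre.RealSum

set_option autoImplicit false

namespace Pool.Agent.TransPre

open Polynomial

theorem class_card {d : ℕ} (hd : 3 ≤ d) {g : ℚ[X]} (hg : g.natDegree = d) {G : ℤ[X]} {q : ℤ}
    (hq : q ≠ 0) (hG : G.map (Int.castRingHom ℚ) = C (q : ℚ) * g) {c : ℚ} {S : Finset ℚ}
    (hS : ∀ x ∈ S, g.eval x + c ∈ S) {b : ℕ} {n : ℚ → ℤ}
    (hn : ∀ x ∈ S, ((n x : ℤ) : ℚ) = b * x)
    (hmin : ∀ p : ℕ, p.Prime → p ∣ b → ∃ x ∈ S, ¬ (p : ℤ) ∣ n x)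
    {p₀ : ℕ} (hp₀ : p₀.Prime) (h2 : p₀ = 2 ∨ p₀ ∣ b) :
    (S.image (fun x => n x %
      (p₀ : ℤ) ^ ((G.leadingCoeff * d).natAbs.factorization p₀ + 1))).card ≤
      2 * (G.leadingCoeff * d).natAbs ^ 2 := by
  classical
  set A := G.leadingCoeff with hAdef
  have hqQ : (q : ℚ) ≠ 0 := by exact_mod_cast hq
  have hGd : G.natDegree = d := by
    have h1 : (G.map (Int.castRingHom ℚ)).natDegree = d := by
      rw [hG, natDegree_C_mul hqQ, hg]
    rwa [natDegree_map_eq_of_injective (RingHom.injective_int _)] at h1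
  have hA0 : A ≠ 0 := by
    rw [hAdef, Ne, leadingCoeff_eq_zero]
    rintro rfl
    simp at hGd
    omega
  have hd0 : (d : ℤ) ≠ 0 := by
    have : 0 < d := by omega
    exact_mod_cast this.ne'
  have hAd0 : A * d ≠ 0 := mul_ne_zero hA0 hd0
  have hAdn : 1 ≤ (A * d).natAbs := Int.natAbs_pos.mpr hAd0
  set e := (A * d).natAbs.factorization p₀ with he
  have hgen : (S.image (fun x => n x % (p₀ : ℤ) ^ (e + 1))).card ≤ p₀ ^ (e + 1) := by
    have h1 : S.image (fun x => n x % (p₀ : ℤ) ^ (e + 1)) ⊆ Finset.Ico 0 ((p₀ : ℤ) ^ (e + 1)) := by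
      intro t ht
      rw [Finset.mem_image] at ht
      obtain ⟨x, _, rfl⟩ := ht
      have hpos : (0 : ℤ) < (p₀ : ℤ) ^ (e + 1) := by
        have := hp₀.pos
        positivity
      rw [Finset.mem_Ico]
      exact ⟨Int.emod_nonneg _ hpos.ne', Int.emod_lt_of_pos _ hpos⟩
    refine (Finset.card_le_card h1).trans ?_
    rw [Int.card_Ico, sub_zero]
    have : ((p₀ : ℤ) ^ (e + 1)) = ((p₀ ^ (e + 1) : ℕ) : ℤ) := by push_cast; ring
    rw [this, Int.toNat_natCast]
  rcases Nat.eq_zero_or_pos e with he0 | hepos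
  · rcases h2 with h2 | h2
    · refine hgen.trans ?_
      rw [he0, h2]
      have : 1 ≤ (A * d).natAbs ^ 2 := Nat.one_le_pow _ _ hAdn
      omega
    · have hpA : ¬ p₀ ∣ (A * d).natAbs := by
        intro h
        have := hp₀.factorization_pos_of_dvd (Int.natAbs_ne_zero.mpr hAd0) h
        omega
      have hpA' : ¬ (p₀ : ℤ) ∣ A := by
        intro h
        apply hpA
        have := Int.natAbs_dvd_natAbs.mpr (h.trans (Dvd.intro (d : ℤ) rfl : A ∣ A * d))
        simpa using this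
      obtain ⟨H, hH⟩ := scaleRoots_decomp G hGd (b : ℤ)
      set P := G.scaleRoots (b : ℤ) with hP
      have hrelb : ∀ x ∈ S, ∀ y ∈ S, (b : ℤ) ∣ P.eval (n x) - P.eval (n y) := by
        intro x hx y hy
        have h3 : P.eval (n x) - P.eval (n y) =
            (b : ℤ) ^ (d - 1) * (q * (n (g.eval x + c) - n (g.eval y + c))) := by
          have h1 := eval_scaleRoots hGd hG (hn x hx)
          have h2 := eval_scaleRoots hGd hG (hn y hy)
          rw [← @Int.cast_inj ℚ]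
          push_cast
          rw [h1, h2, hn _ (hS x hx), hn _ (hS y hy)]
          have h3 : (b : ℚ) ^ d = (b : ℚ) ^ (d - 1) * b := by
            rw [← pow_succ]
            congr 1
            omega
          rw [h3]
          ring
        rw [h3]
        exact Dvd.dvd.mul_right (dvd_pow_self _ (by omega)) _
      have hpb : (p₀ : ℤ) ∣ (b : ℤ) := by exact_mod_cast h2
      obtain ⟨y, hy, hyn⟩ := hmin p₀ hp₀ h2
      have hcop : ∀ x ∈ S, ¬ (p₀ : ℤ) ∣ n x := by
        intro x hx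
        exact not_dvd_num hp₀ (by omega) hH (e := 0) (by simpa using hpA') (by simpa using hpb)
          (hrelb x hx y hy) hyn
      have h3 := card_class_le hp₀ (by omega : 1 ≤ d) hH hpA' hpb S n hrelb hcop
      rw [he0, zero_add, pow_one]
      refine h3.trans ?_
      have h4 : Nat.gcd d (p₀ - 1) ≤ d := Nat.le_of_dvd (by omega) (Nat.gcd_dvd_left _ _)
      have h5 : d ≤ (A * d).natAbs := by
        rw [Int.natAbs_mul, Int.natAbs_natCast]
        exact Nat.le_mul_of_pos_left _ (Int.natAbs_pos.mpr hA0)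
      have h6 : (A * d).natAbs ≤ (A * d).natAbs ^ 2 := by
        rw [sq]
        exact Nat.le_mul_of_pos_left _ hAdn
      omega
  · refine hgen.trans ?_
    have h3 : p₀ ^ (e + 1) ≤ (p₀ ^ e) ^ 2 := by
      rw [← pow_mul]
      exact Nat.pow_le_pow_right hp₀.pos (by omega)
    have h4 : p₀ ^ e ≤ (A * d).natAbs :=
      Nat.le_of_dvd hAdn (Nat.ordProj_dvd _ _)
    have h5 : (p₀ ^ e) ^ 2 ≤ (A * d).natAbs ^ 2 := Nat.pow_le_pow_left h4 2
    omega

/-- common denominator data -/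
theorem exists_den (S : Finset ℚ) : ∃ (b : ℕ) (n : ℚ → ℤ), 0 < b ∧
    (∀ x ∈ S, ((n x : ℤ) : ℚ) = b * x) ∧
    (∀ p : ℕ, p.Prime → p ∣ b → ∃ x ∈ S, ¬ (p : ℤ) ∣ n x) := by
  classical
  have hb0 : S.lcm Rat.den ≠ 0 := by
    rw [Ne, Finset.lcm_eq_zero_iff]
    rintro ⟨x, _, hx⟩
    exact x.den_nz hx
  refine ⟨S.lcm Rat.den, fun x => x.num * ((S.lcm Rat.den / x.den : ℕ) : ℤ),
    Nat.pos_of_ne_zero hb0, ?_, ?_⟩
  · intro x hx
    have h1 : x.den ∣ S.lcm Rat.den := Finset.dvd_lcm hx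
    obtain ⟨k, hk⟩ := h1
    have hx0 : (x.den : ℚ) ≠ 0 := by exact_mod_cast x.den_nz
    show ((x.num * ((S.lcm Rat.den / x.den : ℕ) : ℤ) : ℤ) : ℚ) = ((S.lcm Rat.den : ℕ) : ℚ) * x
    rw [hk, Nat.mul_div_cancel_left _ (Nat.pos_of_ne_zero x.den_nz)]
    push_cast
    have h2 : x * x.den = x.num := Rat.mul_den_eq_num x
    rw [← h2]
    ring
  · intro p hp hpb
    by_contra hcon
    push Not at hcon
    obtain ⟨b', hb'⟩ := hpb
    have h1 : S.lcm Rat.den ∣ b' := by
      refine Finset.lcm_dvd ?_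
      intro x hx
      have h2 := hcon x hx
      have h3 : x.den ∣ S.lcm Rat.den := Finset.dvd_lcm hx
      obtain ⟨k, hk⟩ := h3
      have h4 : S.lcm Rat.den / x.den = k := by
        rw [hk, Nat.mul_div_cancel_left _ (Nat.pos_of_ne_zero x.den_nz)]
      simp only [h4] at h2
      -- `p ∣ x.num * k`, `p * b' = x.den * k`
      obtain ⟨t, ht⟩ := h2
      have h5 : (p : ℤ) * b' = x.den * k := by
        have : p * b' = x.den * k := by rw [← hb', hk]
        exact_mod_cast this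
      -- `x.num * b' = x.den * t`
      have hp0 : (p : ℤ) ≠ 0 := by exact_mod_cast hp.ne_zero
      have h6 : x.num * b' = x.den * t := by
        have h7 : (p : ℤ) * (x.num * b') = p * (x.den * t) := by
          calc (p : ℤ) * (x.num * b') = x.num * (p * b') := by ring
            _ = x.num * (x.den * k) := by rw [h5]
            _ = x.den * (x.num * k) := by ring
            _ = x.den * (p * t) := by rw [ht]
            _ = p * (x.den * t) := by ring
        exact mul_left_cancel₀ hp0 h7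
      have h8 : (x.den : ℤ) ∣ x.num * b' := by
        rw [h6]
        exact Dvd.intro _ rfl
      have h9 : IsCoprime (x.den : ℤ) x.num := by
        rw [Int.isCoprime_iff_gcd_eq_one, Int.gcd_comm]
        exact x.reduced
      have h10 := h9.dvd_of_dvd_mul_left h8
      exact_mod_cast h10
    have hb'0 : 0 < b' := by
      rcases Nat.eq_zero_or_pos b' with h | h
      · rw [h, mul_zero] at hb'
        exact absurd hb' hb0
      · exact h
    have h2 := Nat.le_of_dvd hb'0 h1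
    rw [hb'] at h2
    have := hp.two_le
    nlinarith

theorem sq_le_two_pow {T : ℕ} (hT : 4 ≤ T) : T ^ 2 ≤ 2 ^ T := by
  induction T, hT using Nat.le_induction with
  | base => norm_num
  | succ n hn ih =>
    have h1 : (n + 1) ^ 2 ≤ 2 * n ^ 2 := by nlinarith
    calc (n + 1) ^ 2 ≤ 2 * n ^ 2 := h1
      _ ≤ 2 * 2 ^ n := by omega
      _ = 2 ^ (n + 1) := by ring

theorem exists_threshold (K : ℝ) : ∃ M : ℕ, ∀ m : ℕ, M ≤ m →
    K * (Nat.clog 2 m : ℝ) ≤ m := by
  obtain ⟨k, hk⟩ := exists_nat_ge K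
  refine ⟨2 ^ (4 + 2 * k) + 1, ?_⟩
  intro m hm
  set T := Nat.clog 2 m with hT
  have hm1 : 2 ^ (4 + 2 * k) < m := by omega
  have h1 : 4 + 2 * k < T := by
    rw [hT, Nat.lt_clog_iff_pow_lt (by norm_num)]
    exact hm1
  have h2 : 2 ^ (T - 1) < m := by
    have h2m : 1 < m := lt_of_le_of_lt (Nat.one_le_two_pow) hm1
    exact Nat.pow_pred_clog_lt_self (by norm_num) h2m
  have h3 : T ^ 2 ≤ 2 ^ T := sq_le_two_pow (by omega)
  have h4 : 2 ^ T = 2 * 2 ^ (T - 1) := by
    rw [← pow_succ']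
    congr 1
    omega
  have h5 : 2 * (k * T) ≤ T ^ 2 := by nlinarith
  have h6 : k * T ≤ m := by omega
  have h7 : ((k * T : ℕ) : ℝ) ≤ m := by exact_mod_cast h6
  push_cast at h7
  calc K * (T : ℝ) ≤ k * T := mul_le_mul_of_nonneg_right hk (Nat.cast_nonneg _)
    _ ≤ m := h7

theorem bound_forward_invariant {d : ℕ} (hd : 3 ≤ d) (g : ℚ[X]) (hg : g.natDegree = d) {θ : ℝ}
    (hθ : 0 < θ) : ∃ B : ℕ, ∀ c : ℚ,
      (∃ p : ℕ, p.Prime ∧ (denOne d c : ℝ) ^ θ ≤
        (p : ℝ) ^ c.den.factorization p * denRest d c * max 1 |(c : ℝ)|) →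
      ∀ S : Finset ℚ, (∀ x ∈ S, g.eval x + c ∈ S) → S.card ≤ B := by
  classical
  obtain ⟨q, hq', hqG⟩ := IsLocalization.integerNormalization_spec
    (nonZeroDivisors ℤ) g
  have hq : q ≠ 0 := nonZeroDivisors.ne_zero hq'
  set G := IsLocalization.integerNormalization (nonZeroDivisors ℤ) g with hGdef
  have hG : G.map (Int.castRingHom ℚ) = C (q : ℚ) * g := by
    have h1 : (algebraMap ℤ ℚ) = Int.castRingHom ℚ := rfl
    rw [← h1, hqG]
    ext i
    simp
  obtain ⟨K, hK, hreal⟩ := real_place hd g hg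
  set A := G.leadingCoeff with hA
  set Λ : ℝ := Real.log |(A * d : ℝ)| with hΛ
  have hqQ : (q : ℚ) ≠ 0 := by exact_mod_cast hq
  have hGd : G.natDegree = d := by
    have h1 : (G.map (Int.castRingHom ℚ)).natDegree = d := by
      rw [hG, natDegree_C_mul hqQ, hg]
    rwa [natDegree_map_eq_of_injective (RingHom.injective_int _)] at h1
  have hA0 : A ≠ 0 := by
    rw [hA, Ne, leadingCoeff_eq_zero]
    intro h0
    rw [h0] at hGd
    simp at hGd
    omega
  have hd0 : (d : ℤ) ≠ 0 := by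
    have : 0 < d := by omega
    exact_mod_cast this.ne'
  have hAd0 : A * d ≠ 0 := mul_ne_zero hA0 hd0
  have hΛ0 : 0 ≤ Λ := by
    refine Real.log_nonneg ?_
    have h1 : (1 : ℤ) ≤ |A * d| := Int.one_le_abs hAd0
    exact_mod_cast h1
  have hlq : 0 ≤ Real.log |(q : ℝ)| := by
    refine Real.log_nonneg ?_
    have h1 : (1 : ℤ) ≤ |q| := Int.one_le_abs hq
    exact_mod_cast h1
  set k3 : ℝ := ((A * d).natAbs.primeFactors.card : ℝ) with hk3
  have hk30 : 0 ≤ k3 := by rw [hk3]; positivity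
  set K1 : ℝ := K + (d + 1) * Λ with hK1
  set K2 : ℝ := (2 + k3) / θ + (1 + k3) with hK2
  set K3 : ℝ := (2 * Real.log |(q : ℝ)| + K) / θ with hK3
  have hd' : (3 : ℝ) ≤ d := by exact_mod_cast hd
  have hK10 : 0 ≤ K1 := by rw [hK1]; positivity
  have hK20 : 0 ≤ K2 := by rw [hK2]; positivity
  have hK30 : 0 ≤ K3 := by rw [hK3]; positivity
  obtain ⟨M, hM⟩ := exists_threshold (8 * d ^ 2 * (K2 + K3))
  set K4 : ℝ := K2 * (1 + 4 * d * K1) + K3 with hK4
  obtain ⟨N4, hN4⟩ := exists_nat_ge (Real.exp K4)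
  set Bc : ℕ := 2 * (A * d).natAbs ^ 2 with hBc
  refine ⟨Bc * (M + 2 * d) + (2 * N4 + 1), ?_⟩
  intro c hc S hS
  rcases S.eq_empty_or_nonempty with hSe | hne
  · rw [hSe]
    simp
  obtain ⟨b, n, hb, hn, hmin⟩ := exists_den S
  -- radius
  obtain ⟨R, hR1, hRS, hRx⟩ : ∃ R : ℝ, 1 ≤ R ∧ (∀ x ∈ S, |(x : ℝ)| ≤ R) ∧
      (R = 1 ∨ ∃ x ∈ S, |(x : ℝ)| = R) := by
    obtain ⟨x, hx, hxmax⟩ := Finset.exists_max_image S (fun x => |(x : ℝ)|) hne
    refine ⟨max 1 |(x : ℝ)|, le_max_left _ _, fun y hy => (hxmax y hy).trans (le_max_right _ _), ?_⟩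
    rcases le_total 1 |(x : ℝ)| with h | h
    · right
      exact ⟨x, hx, (max_eq_right h).symm⟩
    · left
      exact max_eq_left h
  obtain ⟨hKc, hreal2⟩ := hreal c S R hS hR1 hRS hRx hne
  have hlR : 0 ≤ Real.log R := Real.log_nonneg hR1
  -- best prime
  obtain ⟨p₀, hp₀mem, hp₀max⟩ := Finset.exists_max_image (insert 2 b.primeFactors)
    (fun p => vv p b * Real.log p) (Finset.insert_nonempty _ _)
  have hp₀ : p₀.Prime := by
    rw [Finset.mem_insert] at hp₀mem
    rcases hp₀mem with h | h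
    · rw [h]; exact Nat.prime_two
    · exact Nat.prime_of_mem_primeFactors h
  have hp₀2 : p₀ = 2 ∨ p₀ ∣ b := by
    rw [Finset.mem_insert] at hp₀mem
    rcases hp₀mem with h | h
    · exact Or.inl h
    · exact Or.inr (Nat.dvd_of_mem_primeFactors h)
  have hmax : ∀ p : ℕ, p.Prime → vv p b * Real.log p ≤ vv p₀ b * Real.log p₀ := by
    intro p hp
    by_cases hpb : p ∣ b
    · exact hp₀max p (Finset.mem_insert_of_mem (Nat.mem_primeFactors.mpr ⟨hp, hpb, hb.ne'⟩))
    · have h1 : vv p (b : ℤ) = 0 := by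
        unfold vv
        rw [Int.natAbs_natCast, Nat.factorization_eq_zero_of_not_dvd hpb]
        simp
      rw [h1, zero_mul]
      exact mul_nonneg (vv_nonneg _ _) (Real.log_natCast_nonneg _)
  have hcc := class_card hd hg hq hG hS hn hmin hp₀ hp₀2
  obtain ⟨S', hS'S, hS'ne, hS'cl, hS'card⟩ := popular S
    (fun x => n x % (p₀ : ℤ) ^ ((A * d).natAbs.factorization p₀ + 1)) hcc hne
  have hcl : ∀ x ∈ S', ∀ y ∈ S',
      (p₀ : ℤ) ^ ((A * d).natAbs.factorization p₀ + 1) ∣ n x - n y := by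
    intro x hx y hy
    have h1 := hS'cl x hx y hy
    exact Int.ModEq.dvd (show n y ≡ n x [ZMOD _] from h1.symm)
  set m := S'.card with hm
  by_cases hmM : M + 2 * d ≤ m
  swap
  · have h1 : S.card ≤ Bc * m := hS'card
    have h2 : Bc * m ≤ Bc * (M + 2 * d) := Nat.mul_le_mul_left _ (by omega)
    omega
  -- large m
  have hT : m ≤ d ^ (Nat.clog 2 m) := by
    calc m ≤ 2 ^ (Nat.clog 2 m) := Nat.le_pow_clog (by norm_num) m
      _ ≤ d ^ (Nat.clog 2 m) := Nat.pow_le_pow_left (by omega) _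
  have hE := main_ineq hd hg hq hG hS hb hn hmin hS'S hp₀ hcl hT
  have hR2 := hreal2 S' hS'S
  have hW := weight_bound hd hg hq hG hS hne hb hn hmin hmax hlR hK hKc hθ hc
  set Wp : ℝ := ∑ p ∈ insert p₀ (goodPrimes d G.leadingCoeff b), vv p b * Real.log p with hWp
  have hWp0 : 0 ≤ Wp := Finset.sum_nonneg
    (fun i _ => mul_nonneg (vv_nonneg _ _) (Real.log_natCast_nonneg _))
  set T : ℝ := (Nat.clog 2 m : ℝ) with hTdef
  have hT0 : 0 ≤ T := by positivity
  set lb : ℝ := Real.log b with hlb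
  have hlb0 : 0 ≤ lb := Real.log_natCast_nonneg b
  have hthr : 8 * (d : ℝ) ^ 2 * (K2 + K3) * T ≤ m := hM m (by omega)
  rw [← hm] at hE hR2
  set m' : ℝ := (m : ℝ) with hm'
  have hm2d : 2 * (d : ℝ) ≤ m' := by
    have h1 : 2 * d ≤ m := by omega
    rw [hm']
    exact_mod_cast h1
  have hm0 : 0 < m' := by linarith
  set W : ℝ := Wp + Real.log R with hWdef
  have hW0 : 0 ≤ W := by linarith
  have hW' : lb + Real.log R ≤ K3 + K2 * W := hW
  -- energy inequality
  have h1 : (d - 2 : ℝ) * (m' ^ 2 / d - m') * W ≤ 2 * m' * T * (d - 1) * lb + m' ^ 2 * K1 := by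
    have e1 : (d - 2 : ℝ) * (m' ^ 2 / d - m') * W = (d - 2 : ℝ) * (m' ^ 2 / d - m') * Wp +
        (d - 2 : ℝ) * (m' ^ 2 / d - m') * Real.log R := by rw [hWdef]; ring
    rw [e1, hK1]
    linarith
  have h2 : m' ^ 2 / (2 * d) ≤ (d - 2 : ℝ) * (m' ^ 2 / d - m') := by
    have e1 : m' ^ 2 / (2 * d) ≤ m' ^ 2 / d - m' := by
      have e2 : m' ≤ m' ^ 2 / (2 * d) := by
        rw [le_div_iff₀ (by positivity)]
        nlinarith
      have e3 : m' ^ 2 / d = m' ^ 2 / (2 * d) + m' ^ 2 / (2 * d) := by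
        field_simp
        ring
      linarith
    have e4 : 0 ≤ m' ^ 2 / (2 * d) := by positivity
    have e5 : 0 ≤ m' ^ 2 / d - m' := e4.trans e1
    nlinarith
  have h3 : m' ^ 2 / (2 * d) * W ≤ 2 * m' * T * d * lb + m' ^ 2 * K1 := by
    have e1 := mul_le_mul_of_nonneg_right h2 hW0
    have e2 : 2 * m' * T * (d - 1) * lb ≤ 2 * m' * T * d * lb := by
      have : 0 ≤ 2 * m' * T * lb := by positivity
      nlinarith
    linarith
  have h4 : m' * W ≤ 4 * d ^ 2 * T * lb + 2 * d * K1 * m' := by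
    have e1 : m' * (m' * W) ≤ m' * (4 * d ^ 2 * T * lb + 2 * d * K1 * m') := by
      have e2 : m' * (m' * W) = (2 * d) * (m' ^ 2 / (2 * d) * W) := by
        field_simp
      rw [e2]
      calc (2 * d) * (m' ^ 2 / (2 * d) * W) ≤ (2 * d) * (2 * m' * T * d * lb + m' ^ 2 * K1) :=
            mul_le_mul_of_nonneg_left h3 (by positivity)
        _ = _ := by ring
    exact le_of_mul_le_mul_left e1 hm0
  have h5 : 4 * d ^ 2 * T * lb ≤ (m' / 2) * W + m' / 2 := by
    have e1 : lb ≤ K3 + K2 * W := by linarith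
    have e2 : 4 * (d : ℝ) ^ 2 * T * lb ≤ 4 * d ^ 2 * T * (K3 + K2 * W) :=
      mul_le_mul_of_nonneg_left e1 (by positivity)
    have e3 : 4 * (d : ℝ) ^ 2 * T * K2 ≤ m' / 2 := by
      have : 0 ≤ 8 * (d : ℝ) ^ 2 * K3 * T := by positivity
      nlinarith
    have e4 : 4 * (d : ℝ) ^ 2 * T * K3 ≤ m' / 2 := by
      have : 0 ≤ 8 * (d : ℝ) ^ 2 * K2 * T := by positivity
      nlinarith
    have e5 := mul_le_mul_of_nonneg_right e3 hW0
    nlinarith
  have h6 : W ≤ 1 + 4 * d * K1 := by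
    have e1 : m' * W ≤ m' * (1 + 4 * d * K1) := by nlinarith
    exact le_of_mul_le_mul_left e1 hm0
  have h7 : lb + Real.log R ≤ K4 := by
    have e1 : K2 * W ≤ K2 * (1 + 4 * d * K1) := mul_le_mul_of_nonneg_left h6 hK20
    rw [hK4]
    linarith
  have hbpos : (0 : ℝ) < b := by exact_mod_cast hb
  have h8 : (b : ℝ) * R ≤ N4 := by
    refine le_trans ?_ hN4
    rw [← Real.log_le_iff_le_exp (by positivity), Real.log_mul hbpos.ne' (by positivity)]
    exact h7
  -- count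
  have h9 : S.card ≤ 2 * N4 + 1 := by
    have h10 : (S.image n).card = S.card := by
      refine Finset.card_image_of_injOn ?_
      intro x hx y hy hxy
      have e1 := hn x hx
      have e2 := hn y hy
      rw [hxy, e2] at e1
      have hbQ : (b : ℚ) ≠ 0 := by exact_mod_cast hb.ne'
      exact (mul_left_cancel₀ hbQ e1).symm
    have h11 : S.image n ⊆ Finset.Icc (-(N4 : ℤ)) N4 := by
      intro t ht
      rw [Finset.mem_image] at ht
      obtain ⟨x, hx, rfl⟩ := ht
      have e1 : ((n x : ℤ) : ℝ) = b * x := by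
        have := hn x hx
        have e2 : (((n x : ℤ) : ℚ) : ℝ) = ((b * x : ℚ) : ℝ) := by rw [this]
        push_cast at e2
        exact e2
      have e3 : |((n x : ℤ) : ℝ)| ≤ N4 := by
        rw [e1, abs_mul, Nat.abs_cast]
        exact (mul_le_mul_of_nonneg_left (hRS x hx) hbpos.le).trans h8
      have e4 : |n x| ≤ (N4 : ℤ) := by exact_mod_cast e3
      rw [Finset.mem_Icc]
      exact abs_le.mp e4
    rw [← h10]
    refine (Finset.card_le_card h11).trans ?_
    rw [Int.card_Icc]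
    omega
  omega

end Pool.Agent.TransPre
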